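import Mathlib

set_option autoImplicit false

namespace Pool.Agent.H373Z.Gor

open Module Submodule

variable {F : Type} [AddCommGroup F] [Module ℝ F] [FiniteDimensional ℝ F] {σ : Type}
  [Fintype σ] [DecidableEq σ]

/-- the span of the sets with index in `S` -/
def spanOn (A : σ → Finset F) (S : Finset σ) : Submodule ℝ F :=
  span ℝ (⋃ i ∈ S, (A i : Set F))

omit [FiniteDimensional ℝ F] [Fintype σ] [DecidableEq σ] in
lemma mem_spanOn {A : σ → Finset F} {S : Finset σ} {i : σ} (hi : i ∈ S) {a : F} (ha : a ∈ A i) :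
    a ∈ spanOn A S := subset_span (Set.mem_biUnion hi ha)

omit [FiniteDimensional ℝ F] [Fintype σ] [DecidableEq σ] in
lemma spanOn_le {A : σ → Finset F} {S : Finset σ} {W : Submodule ℝ F}
    (h : ∀ i ∈ S, ∀ a ∈ A i, a ∈ W) : spanOn A S ≤ W := by
  refine span_le.mpr fun a ha => ?_
  simp only [Set.mem_iUnion] at ha
  obtain ⟨i, hi, ha⟩ := ha
  exact h i hi a ha

/-- Rado's theorem on independent transversals. -/
theorem rado (n : ℕ) : ∀ A : σ → Finset F, ∑ i, (A i).card = n →
    (∀ S : Finset σ, S.card ≤ finrank ℝ (spanOn A S)) →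
    ∃ a : σ → F, (∀ i, a i ∈ A i) ∧ LinearIndependent ℝ a := by
  classical
  induction n using Nat.strong_induction_on with
  | _ n ih =>
  intro A hn hA
  by_cases h1 : ∀ i, (A i).card ≤ 1
  · have hne : ∀ i, (A i).Nonempty := by
      intro i
      by_contra h
      have h2 := hA {i}
      have h3 : spanOn A {i} ≤ ⊥ := spanOn_le fun j hj a ha => by
        rw [Finset.mem_singleton] at hj
        exact absurd ⟨a, hj ▸ ha⟩ h
      rw [le_bot_iff.mp h3] at h2
      simp at h2
    choose a ha using hne
    refine ⟨a, ha, linearIndependent_iff_card_le_finrank_span.mpr ?_⟩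
    refine (hA Finset.univ).trans (finrank_mono (spanOn_le fun i _ b hb => ?_))
    rw [Finset.card_le_one.mp (h1 i) b hb _ (ha i)]
    exact subset_span ⟨i, rfl⟩
  push Not at h1
  obtain ⟨i0, hi0⟩ := h1
  obtain ⟨a, ha, b, hb, hab⟩ := Finset.one_lt_card.mp hi0
  have key : ∀ c ∈ A i0, (∃ a : σ → F, (∀ i, a i ∈ A i) ∧ LinearIndependent ℝ a) ∨
      ∃ S : Finset σ, i0 ∈ S ∧
        finrank ℝ (spanOn (Function.update A i0 ((A i0).erase c)) S) < S.card := by
    intro c hc
    by_cases h : ∀ S : Finset σ,
        S.card ≤ finrank ℝ (spanOn (Function.update A i0 ((A i0).erase c)) S)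
    · left
      have hlt : ∑ i, (Function.update A i0 ((A i0).erase c) i).card < n := by
        rw [← hn]
        refine Finset.sum_lt_sum (fun i _ => ?_) ⟨i0, Finset.mem_univ _, ?_⟩
        · by_cases hi : i = i0
          · subst hi; simp only [Function.update_self]; exact Finset.card_erase_le
          · rw [Function.update_of_ne hi]
        · simp only [Function.update_self]; exact Finset.card_erase_lt_of_mem hc
      obtain ⟨a', ha', hli⟩ := ih _ hlt _ rfl h
      refine ⟨a', fun i => ?_, hli⟩
      have := ha' i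
      by_cases hi : i = i0
      · subst hi; simp only [Function.update_self] at this; exact Finset.mem_of_mem_erase this
      · rwa [Function.update_of_ne hi] at this
    · right
      push Not at h
      obtain ⟨S, hS⟩ := h
      refine ⟨S, ?_, hS⟩
      by_contra hi
      refine absurd ((hA S).trans (finrank_mono (spanOn_le fun i hiS x hx => ?_))) (not_le.mpr hS)
      refine mem_spanOn hiS ?_
      rwa [Function.update_of_ne (fun e : i = i0 => hi (e ▸ hiS))]
  rcases key a ha with h | ⟨S1, hi1, hS1⟩
  · exact h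
  rcases key b hb with h | ⟨S2, hi2, hS2⟩
  · exact h
  exfalso
  have h3 := finrank_sup_add_finrank_inf_eq (spanOn (Function.update A i0 ((A i0).erase a)) S1)
    (spanOn (Function.update A i0 ((A i0).erase b)) S2)
  have h4 : spanOn A (S1 ∪ S2) ≤ spanOn (Function.update A i0 ((A i0).erase a)) S1 ⊔
      spanOn (Function.update A i0 ((A i0).erase b)) S2 := by
    refine spanOn_le fun i hi x hx => ?_
    by_cases hii : i = i0
    · subst hii
      by_cases hxa : x = a
      · refine mem_sup_right (mem_spanOn hi2 ?_)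
        simp only [Function.update_self]
        exact Finset.mem_erase.mpr ⟨hxa ▸ hab, hx⟩
      · refine mem_sup_left (mem_spanOn hi1 ?_)
        simp only [Function.update_self]
        exact Finset.mem_erase.mpr ⟨hxa, hx⟩
    · rcases Finset.mem_union.mp hi with h | h
      · exact mem_sup_left (mem_spanOn h (by rwa [Function.update_of_ne hii]))
      · exact mem_sup_right (mem_spanOn h (by rwa [Function.update_of_ne hii]))
  have h5 : spanOn A ((S1 ∩ S2).erase i0) ≤ spanOn (Function.update A i0 ((A i0).erase a)) S1 ⊓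
      spanOn (Function.update A i0 ((A i0).erase b)) S2 := by
    refine spanOn_le fun i hi x hx => ?_
    obtain ⟨hii, hi'⟩ := Finset.mem_erase.mp hi
    obtain ⟨h, h'⟩ := Finset.mem_inter.mp hi'
    exact ⟨mem_spanOn h (by rwa [Function.update_of_ne hii]),
      mem_spanOn h' (by rwa [Function.update_of_ne hii])⟩
  have h6 := (hA _).trans (finrank_mono h4)
  have h7 := (hA _).trans (finrank_mono h5)
  have h8 := Finset.card_union_add_card_inter S1 S2
  have h9 := Finset.card_erase_add_one (Finset.mem_inter.mpr ⟨hi1, hi2⟩)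
  omega

omit [Fintype σ] in
/-- Two independent partial transversals. -/
theorem two_indep (A : σ → Finset F) (S : Finset σ)
    (h : ∀ S' ⊆ S, S'.card ≤ 2 * finrank ℝ (spanOn A S')) :
    ∃ (z : σ → F) (S1 S2 : Finset σ), Disjoint S1 S2 ∧ S1 ∪ S2 = S ∧ (∀ i ∈ S, z i ∈ A i) ∧
      LinearIndependent ℝ (fun i : S1 => z i) ∧ LinearIndependent ℝ (fun i : S2 => z i) := by
  classical
  let B : S → Finset (F × F) := fun i =>
    (A i).image (fun x => (x, 0)) ∪ (A i).image (fun x => (0, x))
  obtain ⟨a, ha, hli⟩ := rado _ B rfl (fun S' => by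
    have h1 := h (S'.map (Function.Embedding.subtype _)) (fun i hi => by
      obtain ⟨j, -, rfl⟩ := Finset.mem_map.mp hi
      exact j.2)
    rw [Finset.card_map] at h1
    set W := spanOn A (S'.map (Function.Embedding.subtype _)) with hW
    have e : (W.prod W) ≃ₗ[ℝ] W × W :=
      { toFun := fun x => (⟨x.1.1, x.2.1⟩, ⟨x.1.2, x.2.2⟩)
        invFun := fun x => ⟨(x.1.1, x.2.1), x.1.2, x.2.2⟩
        map_add' := fun _ _ => rfl
        map_smul' := fun _ _ => rfl
        left_inv := fun _ => rfl
        right_inv := fun _ => rfl }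
    have h2 : W.prod W ≤ spanOn B S' := by
      have h3 : W ≤ (spanOn B S').comap (LinearMap.inl ℝ F F) := spanOn_le fun i hi x hx => by
        obtain ⟨j, hj, rfl⟩ := Finset.mem_map.mp hi
        exact mem_spanOn hj (Finset.mem_union_left _ (Finset.mem_image_of_mem _ hx))
      have h4 : W ≤ (spanOn B S').comap (LinearMap.inr ℝ F F) := spanOn_le fun i hi x hx => by
        obtain ⟨j, hj, rfl⟩ := Finset.mem_map.mp hi
        exact mem_spanOn hj (Finset.mem_union_right _ (Finset.mem_image_of_mem _ hx))
      rintro ⟨x, y⟩ ⟨hx, hy⟩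
      have h6 : (x, (0 : F)) ∈ spanOn B S' := h3 hx
      have h7 : ((0 : F), y) ∈ spanOn B S' := h4 hy
      simpa using add_mem h6 h7
    have h5 := finrank_mono h2
    rw [e.finrank_eq, finrank_prod] at h5
    omega)
  have hc : ∀ i : S, ∃ x ∈ A i, a i = (x, 0) ∨ a i = (0, x) := by
    intro i
    rcases Finset.mem_union.mp (ha i) with h | h
    · obtain ⟨x, hx, e⟩ := Finset.mem_image.mp h
      exact ⟨x, hx, Or.inl e.symm⟩
    · obtain ⟨x, hx, e⟩ := Finset.mem_image.mp h
      exact ⟨x, hx, Or.inr e.symm⟩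
  choose z hz hz' using hc
  let z' : σ → F := fun i => if hi : i ∈ S then z ⟨i, hi⟩ else 0
  let p : σ → Prop := fun i => ∃ hi : i ∈ S, a ⟨i, hi⟩ = (z ⟨i, hi⟩, 0)
  refine ⟨z', S.filter p, S.filter (fun i => ¬ p i), Finset.disjoint_filter_filter_not _ _ _,
    Finset.filter_union_filter_not_eq _ _, fun i hi => by simp only [z', dif_pos hi]; exact hz _,
    ?_, ?_⟩
  · have h1 := hli.comp (fun i : S.filter p => (⟨i.1, (Finset.mem_filter.mp i.2).1⟩ : S))
      (fun i j e => Subtype.ext (congrArg (fun t : S => t.1) e))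
    refine LinearIndependent.of_comp (LinearMap.inl ℝ F F) 
      (cast (congrArg (fun v => LinearIndependent ℝ v) ?_) h1)
    funext i
    obtain ⟨hi, hi', hi''⟩ := Finset.mem_filter.mp i.2
    simp [z', hi, hi'']
  · have h1 := hli.comp (fun i : S.filter (fun i => ¬ p i) =>
      (⟨i.1, (Finset.mem_filter.mp i.2).1⟩ : S))
      (fun i j e => Subtype.ext (congrArg (fun t : S => t.1) e))
    refine LinearIndependent.of_comp (LinearMap.inr ℝ F F) 
      (cast (congrArg (fun v => LinearIndependent ℝ v) ?_) h1)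
    funext i
    obtain ⟨hi, hi'⟩ := Finset.mem_filter.mp i.2
    have := (hz' ⟨i, hi⟩).resolve_left fun e => hi' ⟨hi, e⟩
    simp [z', hi, this]

end Pool.Agent.H373Z.Gor
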