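import Pool.Agent.H373Z.Gor.Defs
import Pool.Agent.H373Z.Gor.Rado

set_option autoImplicit false

namespace Pool.Agent.H373Z.Gor

open Module Submodule

section int
variable {ι : Type}

lemma IsInt.add {x y : ι → ℝ} (hx : IsInt x) (hy : IsInt y) : IsInt (x + y) := fun i => by
  obtain ⟨a, ha⟩ := hx i
  obtain ⟨b, hb⟩ := hy i
  exact ⟨a + b, by simp [ha, hb]⟩

lemma IsInt.sub {x y : ι → ℝ} (hx : IsInt x) (hy : IsInt y) : IsInt (x - y) := fun i => by
  obtain ⟨a, ha⟩ := hx i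
  obtain ⟨b, hb⟩ := hy i
  exact ⟨a - b, by simp [ha, hb]⟩

lemma IsInt.smul {x : ι → ℝ} (hx : IsInt x) {c : ℝ} (hc : ∃ k : ℤ, c = k) : IsInt (c • x) :=
  fun i => by
    obtain ⟨a, ha⟩ := hx i
    obtain ⟨b, hb⟩ := hc
    exact ⟨b * a, by simp [ha, hb]⟩

lemma isInt_zero : IsInt (0 : ι → ℝ) := fun _ => ⟨0, by simp⟩

lemma IsInt.sum {α : Type} (S : Finset α) (f : α → ι → ℝ) (h : ∀ a ∈ S, IsInt (f a)) :
    IsInt (∑ a ∈ S, f a) :=
  Finset.sum_induction f IsInt (fun _ _ => IsInt.add) isInt_zero h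

lemma IsInt.dot [Fintype ι] {x y : ι → ℝ} (hx : IsInt x) (hy : IsInt y) :
    ∃ k : ℤ, x ⬝ᵥ y = k := by
  choose a ha using hx
  choose b hb using hy
  exact ⟨∑ i, a i * b i, by simp [dotProduct, ha, hb]⟩

end int

/-- The data of a Cayley type decomposition with a unique interior lattice point. -/
structure Setup (ι T : Type) [Fintype T] where
  Vs : T → Finset (ι → ℝ)
  x : T → ι → ℝ
  int : ∀ i, ∀ v ∈ Vs i, IsInt v
  x_mem : ∀ i, x i ∈ convexHull ℝ (Vs i : Set (ι → ℝ))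
  two : ∀ i, ∃ v ∈ Vs i, ∃ v' ∈ Vs i, v ≠ v'
  Q : Set (ι → ℝ)
  sum_mem : ∀ y : T → ι → ℝ, (∀ i, y i ∈ convexHull ℝ (Vs i : Set (ι → ℝ))) →
    ∑ i, (y i - x i) ∈ Q
  uniq : ∀ (ω : ι → ℝ) (B : Set (ι → ℝ)), IsInt ω → ω ∈ span ℝ B →
    (∀ w ∈ B, ∃ ε : ℝ, 0 < ε ∧ ω + ε • w ∈ Q ∧ ω - ε • w ∈ Q) → ω = 0

namespace Setup

variable {ι T : Type} [Fintype ι] [Fintype T] [DecidableEq T] (S : Setup ι T)

open Classical in
/-- differences -/
noncomputable def D (i : T) : Finset (ι → ℝ) := Finset.image₂ (· - ·) (S.Vs i) (S.Vs i)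

omit [DecidableEq T] in
lemma mem_D {i : T} {w : ι → ℝ} : w ∈ S.D i ↔ ∃ p ∈ S.Vs i, p + w ∈ S.Vs i := by
  classical
  unfold D
  rw [Finset.mem_image₂]
  constructor
  · rintro ⟨a, ha, b, hb, rfl⟩
    exact ⟨b, hb, by simpa using ha⟩
  · rintro ⟨p, hp, hp'⟩
    exact ⟨p + w, hp', p, hp, by simp⟩

omit [DecidableEq T] in
lemma sub_mem {i : T} {W : Submodule ℝ (ι → ℝ)} (hW : ∀ w ∈ S.D i, w ∈ W) {a b : ι → ℝ}
    (ha : a ∈ convexHull ℝ (S.Vs i : Set (ι → ℝ))) (hb : b ∈ convexHull ℝ (S.Vs i : Set (ι → ℝ))) :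
    a - b ∈ W := by
  obtain ⟨p, hp, -⟩ := S.two i
  have h : ∀ c ∈ convexHull ℝ (S.Vs i : Set (ι → ℝ)), c - p ∈ W := by
    have hc : Convex ℝ {c | c - p ∈ W} := by
      intro c hc c' hc' s t _ _ hst
      have : s • c + t • c' - p = s • (c - p) + t • (c' - p) := by
        rw [smul_sub, smul_sub, ← add_sub_add_comm, ← add_smul, hst, one_smul]
      change _ - _ ∈ W
      rw [this]
      exact W.add_mem (W.smul_mem _ hc) (W.smul_mem _ hc')
    exact convexHull_min (fun v hv => hW _ (S.mem_D.mpr ⟨p, hp, by simpa using hv⟩)) hc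
  simpa using W.sub_mem (h a ha) (h b hb)

omit [Fintype ι] [DecidableEq T] in
lemma seg_mem {i : T} {p z : ι → ℝ} (hp : p ∈ S.Vs i) (hz : p + z ∈ S.Vs i) {l : ℝ}
    (h0 : 0 ≤ l) (h1 : l ≤ 1) : p + l • z ∈ convexHull ℝ (S.Vs i : Set (ι → ℝ)) := by
  have := (convex_convexHull ℝ (S.Vs i : Set (ι → ℝ))).add_smul_mem
    (subset_convexHull ℝ _ hp) (subset_convexHull ℝ _ hz) ⟨h0, h1⟩
  exact this

/-- `y` can be moved both ways in direction `z` -/
def Inner (j : T) (y z : ι → ℝ) : Prop :=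
  ∃ ε : ℝ, 0 < ε ∧ y + ε • z ∈ convexHull ℝ (S.Vs j : Set (ι → ℝ)) ∧
    y - ε • z ∈ convexHull ℝ (S.Vs j : Set (ι → ℝ))

omit [Fintype ι] in
lemma lemK {κ : Type} (e2 : κ → T) (z y : T → ι → ℝ)
    (hy : ∀ i, y i ∈ convexHull ℝ (S.Vs i : Set (ι → ℝ)))
    (hin : ∀ k, S.Inner (e2 k) (y (e2 k)) (z (e2 k))) (hi : IsInt (∑ i, (y i - S.x i)))
    (hs : ∑ i, (y i - S.x i) ∈ span ℝ (Set.range (z ∘ e2))) : ∑ i, (y i - S.x i) = 0 := by
  refine S.uniq _ _ hi hs ?_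
  rintro _ ⟨k, rfl⟩
  obtain ⟨ε, hε, h1, h2⟩ := hin k
  have key : ∀ w, y (e2 k) + w ∈ convexHull ℝ (S.Vs (e2 k) : Set (ι → ℝ)) →
      ∑ i, (y i - S.x i) + w ∈ S.Q := by
    intro w hw
    have := S.sum_mem (y + Pi.single (e2 k) w) fun i => by
      by_cases h : i = e2 k
      · subst h; simpa using hw
      · simpa [Pi.single_eq_of_ne h] using hy i
    have e : ∑ i, ((y + Pi.single (e2 k) w : T → ι → ℝ) i - S.x i) = ∑ i, (y i - S.x i) + w := by
      simp only [Pi.add_apply, add_sub_right_comm, Finset.sum_add_distrib]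
      simp
    rwa [e] at this
  refine ⟨ε, hε, key _ h1, ?_⟩
  rw [sub_eq_add_neg] at h2 ⊢
  exact key _ h2

omit [Fintype ι] in
lemma lemR {κ κ' : Type} [Fintype κ] (e1 : κ → T) (e2 : κ' → T) (h1 : Function.Injective e1)
    (hd : ∀ k k', e1 k ≠ e2 k') (z y : T → ι → ℝ)
    (hy : ∀ i, y i ∈ convexHull ℝ (S.Vs i : Set (ι → ℝ)))
    (hp : ∀ k, y (e1 k) ∈ S.Vs (e1 k) ∧ y (e1 k) + z (e1 k) ∈ S.Vs (e1 k))
    (hin : ∀ k, S.Inner (e2 k) (y (e2 k)) (z (e2 k))) (l : κ → ℝ) (hl : ∀ k, 0 ≤ l k ∧ l k ≤ 1)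
    (hi : IsInt (∑ i, (y i - S.x i) + ∑ k, l k • z (e1 k)))
    (hs : ∑ i, (y i - S.x i) + ∑ k, l k • z (e1 k) ∈ span ℝ (Set.range (z ∘ e2))) :
    ∑ i, (y i - S.x i) + ∑ k, l k • z (e1 k) = 0 := by
  let y' : T → ι → ℝ := fun i => y i + ∑ k, if e1 k = i then l k • z (e1 k) else 0
  have e : ∑ i, (y' i - S.x i) = ∑ i, (y i - S.x i) + ∑ k, l k • z (e1 k) := by
    simp only [y', add_sub_right_comm, Finset.sum_add_distrib]
    rw [Finset.sum_comm]
    simp
  have hout : ∀ i, (∀ k, e1 k ≠ i) → y' i = y i := fun i hi => by simp [y', hi]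
  rw [← e] at hi hs ⊢
  refine S.lemK e2 z y' (fun i => ?_) (fun k => ?_) hi hs
  · by_cases h : ∃ k, e1 k = i
    · obtain ⟨k, rfl⟩ := h
      have : y' (e1 k) = y (e1 k) + l k • z (e1 k) := by
        simp only [y']
        rw [Finset.sum_eq_single k (fun b _ hb => if_neg fun e => hb (h1 e)) (by simp), if_pos rfl]
      rw [this]
      exact S.seg_mem (hp k).1 (hp k).2 (hl k).1 (hl k).2
    · push Not at h
      rw [hout i h]; exact hy i
  · rw [hout _ fun k' => hd k' k]; exact hin k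

omit [Fintype ι] [DecidableEq T] in
lemma inner_mid {j : T} {p z : ι → ℝ} (hp : p ∈ S.Vs j) (hz : p + z ∈ S.Vs j) {v : ι → ℝ}
    (hv : v ∈ S.Vs j) {δ : ℝ} (h0 : 0 < δ) (h1 : δ ≤ 1) :
    (1 - δ) • v + δ • (p + (1 / 2 : ℝ) • z) ∈ convexHull ℝ (S.Vs j : Set (ι → ℝ)) ∧
      S.Inner j ((1 - δ) • v + δ • (p + (1 / 2 : ℝ) • z)) z := by
  have h : ∀ l : ℝ, 0 ≤ l → l ≤ 1 →
      (1 - δ) • v + δ • (p + l • z) ∈ convexHull ℝ (S.Vs j : Set (ι → ℝ)) := fun l a b =>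
    convex_convexHull ℝ _ (subset_convexHull ℝ _ hv) (S.seg_mem hp hz a b) (by linarith) h0.le
      (by ring)
  refine ⟨h _ (by norm_num) (by norm_num), δ / 2, by positivity, ?_, ?_⟩
  · convert h 1 zero_le_one le_rfl using 1
    module
  · convert h 0 le_rfl zero_le_one using 1
    module

lemma span_eq_of_card {κ : Type} [Fintype κ] {W : Submodule ℝ (ι → ℝ)} {z : κ → ι → ℝ}
    (hz : LinearIndependent ℝ z) (hW : ∀ k, z k ∈ W) (hc : finrank ℝ W ≤ Fintype.card κ) :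
    span ℝ (Set.range z) = W := by
  refine Submodule.eq_of_le_of_finrank_le (span_le.mpr ?_) ?_
  · rintro _ ⟨k, rfl⟩; exact hW k
  · rwa [finrank_span_eq_card hz]

lemma card_le_of_li {κ : Type} [Fintype κ] {W : Submodule ℝ (ι → ℝ)} {z : κ → ι → ℝ}
    (hz : LinearIndependent ℝ z) (hW : ∀ k, z k ∈ W) : Fintype.card κ ≤ finrank ℝ W := by
  rw [← finrank_span_eq_card hz]
  refine finrank_mono (span_le.mpr ?_)
  rintro _ ⟨k, rfl⟩; exact hW k

theorem hall (A : Finset T) : A.card ≤ 2 * finrank ℝ (spanOn S.D A) := by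
  induction A using Finset.strongInduction with
  | H A ih =>
  by_contra hlt
  push Not at hlt
  obtain ⟨i0, hi0⟩ : A.Nonempty := Finset.card_pos.mp (by omega)
  obtain ⟨z, S1, S2, hd, hu, hz, l1, l2⟩ := two_indep S.D (A.erase i0) fun S' hS' =>
    ih S' (lt_of_le_of_lt hS' (Finset.erase_ssubset hi0))
  set W := spanOn S.D A with hW
  have hS1 : ∀ i ∈ S1, i ∈ A.erase i0 := fun i hi => hu ▸ Finset.mem_union_left _ hi
  have hS2 : ∀ i ∈ S2, i ∈ A.erase i0 := fun i hi => hu ▸ Finset.mem_union_right _ hi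
  have hzW : ∀ i ∈ A.erase i0, z i ∈ W := fun i hi =>
    mem_spanOn (Finset.mem_of_mem_erase hi) (hz i hi)
  have c1 := card_le_of_li l1 fun k => hzW _ (hS1 _ k.2)
  have c2 := card_le_of_li l2 fun k => hzW _ (hS2 _ k.2)
  have c3 : S1.card + S2.card + 1 = A.card := by
    rw [← Finset.card_union_of_disjoint hd, hu, Finset.card_erase_add_one hi0]
  rw [Fintype.card_coe] at c1 c2
  have s1 := span_eq_of_card l1 (fun k => hzW _ (hS1 _ k.2)) (by rw [Fintype.card_coe]; omega)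
  have s2 := span_eq_of_card l2 (fun k => hzW _ (hS2 _ k.2)) (by rw [Fintype.card_coe]; omega)
  have hp : ∀ i, ∃ p, i ∈ A.erase i0 → p ∈ S.Vs i ∧ p + z i ∈ S.Vs i := by
    intro i
    by_cases hi : i ∈ A.erase i0
    · obtain ⟨p, h1, h2⟩ := S.mem_D.mp (hz i hi)
      exact ⟨p, fun _ => ⟨h1, h2⟩⟩
    · exact ⟨0, fun h => absurd h hi⟩
  choose p hp using hp
  have hzint : ∀ i ∈ A.erase i0, IsInt (z i) := fun i hi => by
    simpa using (S.int i _ (hp i hi).2).sub (S.int i _ (hp i hi).1)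
  obtain ⟨v, hv, v', hv', hvv⟩ := S.two i0
  let y : (ι → ℝ) → T → ι → ℝ := fun q i =>
    if i = i0 then q else if i ∈ S1 then p i else if i ∈ S2 then p i + (1 / 2 : ℝ) • z i
      else S.x i
  have hy1 : ∀ q, ∀ i ∈ S1, y q i = p i := fun q i hi => by
    simp [y, hi, (Finset.mem_erase.mp (hS1 i hi)).1]
  have hy2 : ∀ q, ∀ i ∈ S2, y q i = p i + (1 / 2 : ℝ) • z i := fun q i hi => by
    simp [y, hi, (Finset.mem_erase.mp (hS2 i hi)).1, Finset.disjoint_right.mp hd hi]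
  have hmid : ∀ i ∈ S2, p i + (1 / 2 : ℝ) • z i ∈ convexHull ℝ (S.Vs i : Set (ι → ℝ)) ∧
      S.Inner i (p i + (1 / 2 : ℝ) • z i) (z i) := fun i hi => by
    simpa using S.inner_mid (hp i (hS2 i hi)).1 (hp i (hS2 i hi)).2 (hp i (hS2 i hi)).1
      one_pos le_rfl
  have hy : ∀ q ∈ S.Vs i0, ∀ i, y q i ∈ convexHull ℝ (S.Vs i : Set (ι → ℝ)) := by
    intro q hq i
    simp only [y]
    split_ifs with a b c
    · exact a ▸ subset_convexHull ℝ _ hq
    · exact subset_convexHull ℝ _ (hp i (hS1 i b)).1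
    · exact (hmid i c).1
    · exact S.x_mem i
  have hW' : ∑ i, (y v i - S.x i) ∈ W := by
    refine W.sum_mem fun i _ => ?_
    by_cases hi : i ∈ A
    · exact S.sub_mem (fun w hw => mem_spanOn hi hw) (hy v hv i) (S.x_mem i)
    · have a : i ≠ i0 := fun e => hi (e ▸ hi0)
      have b : i ∉ S1 := fun e => hi (Finset.mem_of_mem_erase (hS1 i e))
      have c : i ∉ S2 := fun e => hi (Finset.mem_of_mem_erase (hS2 i e))
      simp [y, a, b, c]
  have hdiff : ∑ i, (y v' i - S.x i) = ∑ i, (y v i - S.x i) + (v' - v) := by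
    have : ∀ i, y v' i - S.x i = y v i - S.x i + (if i = i0 then v' - v else 0) := by
      intro i
      by_cases h : i = i0 <;> simp [y, h]
    simp only [this, Finset.sum_add_distrib]
    simp
  rw [← s1, mem_span_range_iff_exists_fun] at hW'
  obtain ⟨γ, hγ⟩ := hW'
  let l : S1 → ℝ := fun k => ⌈γ k⌉ - γ k
  have hl : ∀ k, 0 ≤ l k ∧ l k ≤ 1 := fun k =>
    ⟨sub_nonneg.mpr (Int.le_ceil _), by have := Int.ceil_lt_add_one (γ k); simp only [l]; linarith⟩
  have hsum : ∑ i, (y v i - S.x i) + ∑ k, l k • z k = ∑ k : S1, (⌈γ k⌉ : ℝ) • z k := by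
    rw [← hγ, ← Finset.sum_add_distrib]
    refine Finset.sum_congr rfl fun k _ => ?_
    simp only [l]; module
  have hint : IsInt (∑ k : S1, (⌈γ k⌉ : ℝ) • z k) :=
    IsInt.sum _ _ fun k _ => (hzint _ (hS1 _ k.2)).smul ⟨_, rfl⟩
  have hmem : ∑ k : S1, (⌈γ k⌉ : ℝ) • z k ∈ W :=
    W.sum_mem fun k _ => W.smul_mem _ (hzW _ (hS1 _ k.2))
  have app : ∀ q ∈ S.Vs i0, IsInt (∑ i, (y q i - S.x i) + ∑ k, l k • z k) →
      ∑ i, (y q i - S.x i) + ∑ k, l k • z k ∈ W →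
      ∑ i, (y q i - S.x i) + ∑ k, l k • z k = 0 := fun q hq a b =>
    S.lemR (fun k : S1 => k.1) (fun k : S2 => k.1) Subtype.val_injective
      (fun k k' e => Finset.disjoint_left.mp hd k.2 (e ▸ k'.2)) z (y q) (hy q hq)
      (fun k => by rw [hy1 q _ k.2]; exact hp _ (hS1 _ k.2))
      (fun k => by rw [hy2 q _ k.2]; exact (hmid _ k.2).2) l hl a (s2.symm ▸ b)
  have r1 := app v hv (hsum ▸ hint) (hsum ▸ hmem)
  have e2 : ∑ i, (y v' i - S.x i) + ∑ k, l k • z k = v' - v := by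
    rw [hdiff, add_right_comm, r1, zero_add]
  have r2 := app v' hv' (e2 ▸ (S.int _ _ hv').sub (S.int _ _ hv))
    (e2 ▸ mem_spanOn hi0 (S.mem_D.mpr ⟨v, hv, by simpa using hv'⟩))
  rw [e2, sub_eq_zero] at r2
  exact hvv r2.symm

lemma limit_aux {a b : ℝ} (h : ∀ δ : ℝ, 0 < δ → δ ≤ 1 → a + δ * b < 0) : a ≤ 0 := by
  by_contra ha
  push Not at ha
  have h1 := h 1 one_pos le_rfl
  have hb : 0 < -b := by linarith
  have h2 := h (a / -b) (by positivity) (by rw [div_le_one hb]; linarith)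
  have hb' : b ≠ 0 := by intro e; simp [e] at hb
  have : a / -b * b = -a := by field_simp
  linarith

theorem structure_aux {s : ℕ} (e1 e2 : Fin s → T) (h1 : Function.Injective e1)
    (h2 : Function.Injective e2) (hd : ∀ k k', e1 k ≠ e2 k')
    (hall : ∀ i, (∃ k, e1 k = i) ∨ ∃ k, e2 k = i) (p z : T → ι → ℝ)
    (hp : ∀ i, p i ∈ S.Vs i ∧ p i + z i ∈ S.Vs i) (W : Submodule ℝ (ι → ℝ))
    (hW : ∀ i, ∀ w ∈ S.D i, w ∈ W) (s2 : span ℝ (Set.range (z ∘ e2)) = W)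
    (l2 : LinearIndependent ℝ (z ∘ e2)) (hx : IsInt (∑ i, S.x i))
    (ψ : (ι → ℝ) →ₗ[ℝ] (Fin s → ℝ)) (hψ1 : ∀ γ : Fin s → ℝ, ψ (∑ k, γ k • z (e1 k)) = γ)
    (hψ2 : ∀ w ∈ W, ∑ k, ψ w k • z (e1 k) = w) :
    (∀ w ∈ W, IsInt w → IsInt (ψ w)) ∧ ∃ π : Fin s ≃ Fin s, ∀ k,
      (z (e2 (π k)) = z (e1 k) ∨ z (e2 (π k)) = -z (e1 k)) ∧
      ∀ v ∈ S.Vs (e2 (π k)), v = p (e2 (π k)) ∨ v = p (e2 (π k)) + z (e2 (π k)) := by
  have hzint : ∀ i, IsInt (z i) := fun i => by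
    simpa using (S.int i _ (hp i).2).sub (S.int i _ (hp i).1)
  have hzW : ∀ i, z i ∈ W := fun i => hW i _ (S.mem_D.mpr ⟨p i, hp i⟩)
  have hcomb : ∀ γ : Fin s → ℝ, ∑ k, γ k • z (e1 k) ∈ W := fun γ =>
    W.sum_mem fun k _ => W.smul_mem _ (hzW _)
  have hcint : ∀ γ : Fin s → ℝ, IsInt γ → IsInt (∑ k, γ k • z (e1 k)) := fun γ hγ =>
    IsInt.sum _ _ fun k _ => (hzint _).smul (hγ k)
  -- the basic rounding statement
  have round : ∀ y : T → ι → ℝ, (∀ i, y i ∈ convexHull ℝ (S.Vs i : Set (ι → ℝ))) →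
      (∀ k, y (e1 k) = p (e1 k)) → (∀ k, S.Inner (e2 k) (y (e2 k)) (z (e2 k))) →
      ∀ l : Fin s → ℝ, (∀ k, 0 ≤ l k ∧ l k ≤ 1) →
      IsInt (∑ k, (ψ (∑ i, (y i - S.x i)) + l) k • z (e1 k)) → ψ (∑ i, (y i - S.x i)) + l = 0 := by
    intro y hy hy1 hy2 l hl hi
    have hm : ∑ i, (y i - S.x i) ∈ W :=
      W.sum_mem fun i _ => S.sub_mem (hW i) (hy i) (S.x_mem i)
    have e : ∑ k, (ψ (∑ i, (y i - S.x i)) + l) k • z (e1 k) =
        ∑ i, (y i - S.x i) + ∑ k, l k • z (e1 k) := by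
      simp only [Pi.add_apply, add_smul, Finset.sum_add_distrib]
      rw [hψ2 _ hm]
    have := S.lemR e1 e2 h1 hd z y hy (fun k => by rw [hy1]; exact hp _) hy2 l hl (e ▸ hi)
      (by rw [s2, ← e]; exact hcomb _)
    rw [← hψ1 (ψ (∑ i, (y i - S.x i)) + l), e, this, map_zero]
  have open01 : ∀ y : T → ι → ℝ, (∀ i, y i ∈ convexHull ℝ (S.Vs i : Set (ι → ℝ))) →
      (∀ k, y (e1 k) = p (e1 k)) → (∀ k, S.Inner (e2 k) (y (e2 k)) (z (e2 k))) →
      ∀ k, -1 < ψ (∑ i, (y i - S.x i)) k ∧ ψ (∑ i, (y i - S.x i)) k < 0 := by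
    intro y hy hy1 hy2 k
    have r := round y hy hy1 hy2
    set γ := ψ (∑ i, (y i - S.x i))
    have r1 := r (fun k => ⌈γ k⌉ - γ k) (fun k => ⟨sub_nonneg.mpr (Int.le_ceil _), by
      have := Int.ceil_lt_add_one (γ k); linarith⟩) (hcint _ fun k => ⟨⌈γ k⌉, by simp⟩)
    have r2 := r (fun k => ⌊γ k⌋ + 1 - γ k) (fun k => ⟨by
      have := Int.lt_floor_add_one (γ k); linarith, by
      have := Int.floor_le (γ k); linarith⟩) (hcint _ fun k => ⟨⌊γ k⌋ + 1, by simp⟩)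
    have a1 := congrFun r1 k
    have a2 := congrFun r2 k
    simp only [Pi.add_apply, Pi.zero_apply] at a1 a2
    have b1 := Int.ceil_lt_add_one (γ k)
    have b2 := Int.lt_floor_add_one (γ k)
    constructor <;> linarith
  -- the family of test points
  let y : (Fin s → ι → ℝ) → ℝ → T → ι → ℝ := fun v δ i =>
    if h : ∃ k, e2 k = i then (1 - δ) • v h.choose + δ • (p i + (1 / 2 : ℝ) • z i) else p i
  have hy2 : ∀ v δ k, y v δ (e2 k) = (1 - δ) • v k + δ • (p (e2 k) + (1 / 2 : ℝ) • z (e2 k)) := by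
    intro v δ k
    have h : ∃ k', e2 k' = e2 k := ⟨k, rfl⟩
    simp only [y, dif_pos h, h2 h.choose_spec]
  have hy1 : ∀ v δ k, y v δ (e1 k) = p (e1 k) := by
    intro v δ k
    have h : ¬ ∃ k', e2 k' = e1 k := fun ⟨k', e⟩ => hd k k' e.symm
    simp only [y, dif_neg h]
  have hy : ∀ v, (∀ k, v k ∈ S.Vs (e2 k)) → ∀ δ, 0 < δ → δ ≤ 1 →
      (∀ i, y v δ i ∈ convexHull ℝ (S.Vs i : Set (ι → ℝ))) ∧
      ∀ k, S.Inner (e2 k) (y v δ (e2 k)) (z (e2 k)) := by
    intro v hv δ a b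
    refine ⟨fun i => ?_, fun k => ?_⟩
    · rcases hall i with ⟨k, rfl⟩ | ⟨k, rfl⟩
      · rw [hy1]; exact subset_convexHull ℝ _ (hp _).1
      · rw [hy2]; exact (S.inner_mid (hp _).1 (hp _).2 (hv k) a b).1
    · rw [hy2]; exact (S.inner_mid (hp _).1 (hp _).2 (hv k) a b).2
  have hI : ∀ w ∈ W, IsInt w → IsInt (ψ w) := by
    intro w hw hwi k
    obtain ⟨a, b⟩ := hy (fun k => p (e2 k)) (fun k => (hp _).1) 1 one_pos le_rfl
    have r := round _ a (hy1 (fun k => p (e2 k)) 1) b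
    set γ := ψ (∑ i, (y (fun k => p (e2 k)) 1 i - S.x i))
    have r1 := r (fun k => Int.fract (ψ w k - γ k))
      (fun k => ⟨Int.fract_nonneg _, (Int.fract_lt_one _).le⟩) (by
        have : ∑ k, (γ + fun k => Int.fract (ψ w k - γ k)) k • z (e1 k) =
            w - ∑ k, (⌊ψ w k - γ k⌋ : ℝ) • z (e1 k) := by
          conv_rhs => rw [← hψ2 w hw]
          rw [hψ1, ← Finset.sum_sub_distrib]
          refine Finset.sum_congr rfl fun k _ => ?_
          simp only [Pi.add_apply, Int.fract]; module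
        rw [this]
        exact hwi.sub (hcint (fun k => (⌊ψ w k - γ k⌋ : ℝ)) fun k => ⟨_, rfl⟩))
    have := congrFun r1 k
    simp only [Pi.add_apply, Pi.zero_apply, Int.fract] at this
    exact ⟨⌊ψ w k - γ k⌋, by linarith⟩
  refine ⟨hI, ?_⟩
  have hsum : ∀ v δ, ∑ i, (y v δ i - S.x i) = ∑ i, (p i - S.x i) +
      ∑ k, ((1 - δ) • (v k - p (e2 k)) + (δ / 2) • z (e2 k)) := by
    intro v δ
    have : ∀ i, y v δ i - S.x i = p i - S.x i +
        ∑ k, if e2 k = i then (1 - δ) • (v k - p (e2 k)) + (δ / 2) • z (e2 k) else 0 := by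
      intro i
      rcases hall i with ⟨k, rfl⟩ | ⟨k, rfl⟩
      · simp [hy1, fun k' => (hd k k').symm]
      · simp only [hy2, h2.eq_iff, Finset.sum_ite_eq', Finset.mem_univ, if_true]; module
    simp only [this, Finset.sum_add_distrib (f := fun i => p i - S.x i)]
    rw [Finset.sum_comm]
    simp
  have hgW : ∑ i, (p i - S.x i) ∈ W :=
    W.sum_mem fun i _ => S.sub_mem (hW i) (subset_convexHull ℝ _ (hp i).1) (S.x_mem i)
  have hgI : IsInt (∑ i, (p i - S.x i)) := by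
    rw [Finset.sum_sub_distrib]
    exact (IsInt.sum _ _ fun i _ => S.int i _ (hp i).1).sub hx
  choose g hg using hI _ hgW hgI
  have hf : ∀ j, ∀ v ∈ S.Vs (e2 j), IsInt (ψ (v - p (e2 j))) := fun j v hv =>
    hI _ (hW (e2 j) _ (S.mem_D.mpr ⟨p (e2 j), (hp _).1, by simpa using hv⟩))
      ((S.int _ _ hv).sub (S.int _ _ (hp _).1))
  have hbound : ∀ v : Fin s → ι → ℝ, (∀ k, v k ∈ S.Vs (e2 k)) → ∀ δ : ℝ, 0 < δ → δ ≤ 1 → ∀ k,
      -1 < g k + (1 - δ) * ∑ j, ψ (v j - p (e2 j)) k + δ / 2 * ∑ j, ψ (z (e2 j)) k ∧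
      g k + (1 - δ) * ∑ j, ψ (v j - p (e2 j)) k + δ / 2 * ∑ j, ψ (z (e2 j)) k < 0 := by
    intro v hv δ a b k
    obtain ⟨c, d⟩ := hy v hv δ a b
    have := open01 _ c (hy1 v δ) d k
    rw [hsum, map_add, Pi.add_apply, hg, map_sum, Finset.sum_apply] at this
    simp only [map_add, map_smul, Pi.add_apply, Pi.smul_apply, smul_eq_mul,
      Finset.sum_add_distrib, ← Finset.mul_sum] at this
    rwa [← add_assoc] at this
  have hclosed : ∀ v : Fin s → ι → ℝ, (∀ k, v k ∈ S.Vs (e2 k)) → ∀ k,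
      -1 ≤ g k + ∑ j, ψ (v j - p (e2 j)) k ∧ g k + ∑ j, ψ (v j - p (e2 j)) k ≤ 0 := by
    intro v hv k
    constructor
    · have := limit_aux (a := -1 - (g k + ∑ j, ψ (v j - p (e2 j)) k))
        (b := ∑ j, ψ (v j - p (e2 j)) k - 1 / 2 * ∑ j, ψ (z (e2 j)) k) fun δ a b => by
          have := (hbound v hv δ a b k).1
          linarith
      linarith
    · exact limit_aux (b := -∑ j, ψ (v j - p (e2 j)) k + 1 / 2 * ∑ j, ψ (z (e2 j)) k)
        fun δ a b => by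
          have := (hbound v hv δ a b k).2
          linarith
  have hex : ∀ k, ∃ j, ψ (z (e2 j)) k ≠ 0 := by
    intro k
    by_contra h
    push Not at h
    have := hbound (fun k => p (e2 k)) (fun k => (hp _).1) 1 one_pos le_rfl k
    simp only [h, sub_self, zero_mul, Finset.sum_const_zero, mul_zero, add_zero] at this
    have a : (-1 : ℤ) < g k := by exact_mod_cast this.1
    have b : g k < (0 : ℤ) := by exact_mod_cast this.2
    omega
  choose π hπ using hex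
  have one : ∀ j, ∀ v ∈ S.Vs (e2 j), ∀ k,
      -1 ≤ g k + ψ (v - p (e2 j)) k ∧ g k + ψ (v - p (e2 j)) k ≤ 0 := by
    intro j v hv k
    have := hclosed (Function.update (fun k => p (e2 k)) j v) (fun k => by
      by_cases h : k = j
      · subst h; simpa using hv
      · simpa [Function.update_of_ne h] using (hp _).1) k
    rwa [Finset.sum_eq_single j (fun b _ hb => by simp [Function.update_of_ne hb]) (by simp),
      Function.update_self] at this
  have two : ∀ j j', j ≠ j' → ∀ v ∈ S.Vs (e2 j), ∀ v' ∈ S.Vs (e2 j'), ∀ k,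
      -1 ≤ g k + (ψ (v - p (e2 j)) k + ψ (v' - p (e2 j')) k) ∧
      g k + (ψ (v - p (e2 j)) k + ψ (v' - p (e2 j')) k) ≤ 0 := by
    intro j j' hjj v hv v' hv' k
    have := hclosed (Function.update (Function.update (fun k => p (e2 k)) j v) j' v') (fun k => by
      by_cases h' : k = j'
      · subst h'; simpa using hv'
      by_cases h : k = j
      · subst h; simpa [Function.update_of_ne h'] using hv
      · simpa [Function.update_of_ne h, Function.update_of_ne h'] using (hp _).1) k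
    rwa [Finset.sum_eq_add j j' hjj (fun b _ hb => by
      simp [Function.update_of_ne hb.1, Function.update_of_ne hb.2]) (by simp) (by simp),
      Function.update_self, Function.update_of_ne hjj, Function.update_self] at this
  have hg0 : ∀ k, -1 ≤ g k ∧ g k ≤ 0 := fun k => by
    have := one (π k) _ (hp _).1 k
    simp only [sub_self, map_zero, Pi.zero_apply, add_zero] at this
    exact ⟨by exact_mod_cast this.1, by exact_mod_cast this.2⟩
  have hC : ∀ k, ∃ C : ℤ, ψ (z (e2 (π k))) k = C ∧ C ≠ 0 ∧ -1 ≤ g k + C ∧ g k + C ≤ 0 := by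
    intro k
    obtain ⟨C, hC⟩ := hI _ (hzW _) (hzint (e2 (π k))) k
    have := one (π k) _ (hp _).2 k
    rw [add_sub_cancel_left, hC] at this
    refine ⟨C, hC, fun e => hπ k (by rw [hC, e]; simp), by exact_mod_cast this.1,
      by exact_mod_cast this.2⟩
  have off : ∀ k j, j ≠ π k → ∀ v ∈ S.Vs (e2 j), ψ (v - p (e2 j)) k = 0 := by
    intro k j hj v hv
    obtain ⟨C, c1, c2, c3, c4⟩ := hC k
    obtain ⟨f, hf'⟩ := hf j v hv k
    have a := one j v hv k
    have b := two j (π k) hj v hv _ (hp _).2 k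
    rw [add_sub_cancel_left, c1] at b
    rw [hf'] at a b ⊢
    have a1 : -1 ≤ g k + f := by exact_mod_cast a.1
    have a2 : g k + f ≤ 0 := by exact_mod_cast a.2
    have b1 : -1 ≤ g k + (f + C) := by exact_mod_cast b.1
    have b2 : g k + (f + C) ≤ 0 := by exact_mod_cast b.2
    have := hg0 k
    have : f = 0 := by omega
    simp [this]
  have hsurj : Function.Surjective π := by
    intro j
    by_contra h
    push Not at h
    apply l2.ne_zero j
    rw [Function.comp_apply, ← hψ2 _ (hzW (e2 j))]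
    refine Finset.sum_eq_zero fun k _ => ?_
    have := off k j (h k).symm _ (hp _).2
    rw [add_sub_cancel_left] at this
    rw [this, zero_smul]
  have hinj : Function.Injective π := Finite.injective_iff_surjective.mpr hsurj
  have hval : ∀ k, ∀ v ∈ S.Vs (e2 (π k)),
      v - p (e2 (π k)) = ψ (v - p (e2 (π k))) k • z (e1 k) := by
    intro k v hv
    conv_lhs => rw [← hψ2 _ (hW _ _ (S.mem_D.mpr ⟨p (e2 (π k)), (hp _).1,
      (by simpa using hv : p (e2 (π k)) + (v - p (e2 (π k))) ∈ _)⟩))]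
    refine Finset.sum_eq_single k (fun b _ hb => ?_) (by simp)
    rw [off b (π k) (fun e => hb (hinj e).symm) v hv, zero_smul]
  have hbij : Function.Bijective π := ⟨hinj, hsurj⟩
  refine ⟨Equiv.ofBijective π hbij, fun k => ?_⟩
  simp only [Equiv.ofBijective_apply]
  obtain ⟨C, c1, c2, c3, c4⟩ := hC k
  have hz := hval k _ (hp _).2
  rw [add_sub_cancel_left, c1] at hz
  have := hg0 k
  constructor
  · have : C = 1 ∨ C = -1 := by omega
    rcases this with rfl | rfl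
    · left; simpa using hz
    · right; simpa using hz
  · intro v hv
    obtain ⟨f, hf'⟩ := hf (π k) v hv k
    have a := one (π k) v hv k
    have hv' := hval k v hv
    rw [hf'] at a hv'
    have a1 : -1 ≤ g k + f := by exact_mod_cast a.1
    have a2 : g k + f ≤ 0 := by exact_mod_cast a.2
    have : f = 0 ∨ f = C := by omega
    rcases this with rfl | rfl
    · left; simpa [sub_eq_zero] using hv'
    · right; rw [← hz] at hv'; rw [← hv']; simp

end Setup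

end Pool.Agent.H373Z.Gor
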