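import Mathlib

set_option autoImplicit false

namespace Pool.Agent.H373Z.Gor

/-- A point with integer coordinates. -/
def IsInt {ι : Type} (x : ι → ℝ) : Prop := ∀ i, ∃ k : ℤ, x i = k

/-- A lattice polytope: the convex hull of finitely many points with integer coordinates. -/
def IsLatticePolytope {ι : Type} (P : Set (ι → ℝ)) : Prop :=
  ∃ V : Finset (ι → ℝ), (∀ v ∈ V, IsInt v) ∧ P = convexHull ℝ (V : Set (ι → ℝ))

/-- The dual `{y : ⟨x, y⟩ ≥ -1 for all x ∈ Q}`. -/
def dual {ι : Type} [Fintype ι] (Q : Set (ι → ℝ)) : Set (ι → ℝ) := {y | ∀ x ∈ Q, -1 ≤ x ⬝ᵥ y}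

/-- A reflexive polytope: a lattice polytope with `0` in its interior whose dual is a lattice
polytope. -/
def IsReflexive {ι : Type} [Fintype ι] (Q : Set (ι → ℝ)) : Prop :=
  IsLatticePolytope Q ∧ 0 ∈ interior Q ∧ IsLatticePolytope (dual Q)

/-- `P` is a Gorenstein polytope of codegree `r`: a lattice polytope such that `r P - m` is
reflexive for a lattice point `m`, where `r ≥ 1` is the least positive integer such that `r P`
has an interior lattice point. -/
def IsGorenstein {ι : Type} [Fintype ι] (P : Set (ι → ℝ)) (r : ℕ) : Prop :=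
  IsLatticePolytope P ∧ (∃ m, IsInt m ∧ IsReflexive ((fun x => (r : ℝ) • x - m) '' P)) ∧
    IsLeast {k : ℕ | 1 ≤ k ∧ ∃ x, IsInt x ∧ x ∈ interior ((fun x => (k : ℝ) • x) '' P)} r

/-- Isomorphism of lattice polytopes with respect to their affine lattices: an affine map which
carries `P` onto `P'` and is a bijection from the lattice points of the affine span of `P` onto
the lattice points of the affine span of `P'`. -/
def LatticeIso {ι κ : Type} (P : Set (ι → ℝ)) (P' : Set (κ → ℝ)) : Prop :=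
  ∃ φ : (ι → ℝ) →ᵃ[ℝ] (κ → ℝ), φ '' P = P' ∧
    Set.BijOn φ {x | x ∈ affineSpan ℝ P ∧ IsInt x} {y | y ∈ affineSpan ℝ P' ∧ IsInt y}

/-- The pyramid `conv (Q × {0}, (0, …, 0, 1))`; the extra coordinate is indexed by `none`. -/
def pyramid {ι : Type} (Q : Set (ι → ℝ)) : Set (Option ι → ℝ) :=
  convexHull ℝ (((fun x (o : Option ι) => o.elim 0 x) '' Q) ∪ {fun o => o.elim 1 (fun _ => 0)})

/-- `P` is a lattice pyramid. -/
def IsLatticePyramid {ι : Type} (P : Set (ι → ℝ)) : Prop :=
  ∃ (k : ℕ) (Q : Set (Fin k → ℝ)), IsLatticePolytope Q ∧ LatticeIso P (pyramid Q)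

/-- The Cayley polytope: the convex hull of the union of the sets `P i × {e i}`. -/
def cayley {ι κ : Type} [DecidableEq κ] (P : κ → Set (ι → ℝ)) : Set (ι ⊕ κ → ℝ) :=
  convexHull ℝ (⋃ i, (fun x => Sum.elim x (Pi.single i (1 : ℝ))) '' P i)

/-- The Cayley polytope of the `2 s` segments `conv (0, e i)` and `conv (0, - e i)`. -/
def Cs (s : ℕ) : Set (Fin s ⊕ (Fin s ⊕ Fin s) → ℝ) :=
  cayley (Sum.elim (fun i => convexHull ℝ {0, Pi.single i (1 : ℝ)})
    (fun i => convexHull ℝ {0, -Pi.single i (1 : ℝ)}))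

end Pool.Agent.H373Z.Gor
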