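import Pool.Agent.H373Z.Gor.Main

set_option autoImplicit false

namespace Pool.Agent.H373Z.Gor

open Module Submodule

lemma zero_mem_hull {ι : Type} [Fintype ι] [Nonempty ι] {Q : Set (ι → ℝ)}
    (hQ : IsLatticePolytope Q) {Y : Set (ι → ℝ)} (hY : dual Q = convexHull ℝ Y) :
    (0 : ι → ℝ) ∈ convexHull ℝ (Y \ {0}) := by
  let w : ι → ℝ := fun _ => 1
  have hw : w ≠ 0 := fun h => by simpa [w] using congrFun h (Classical.arbitrary ι)
  obtain ⟨a, ha, ha'⟩ := exists_smul_mem_dual hQ w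
  obtain ⟨b, hb, hb'⟩ := exists_smul_mem_dual hQ (-w)
  rw [hY] at ha' hb'
  have hsub : convexHull ℝ Y ⊆ convexHull ℝ (insert 0 (Y \ {0})) :=
    convexHull_mono fun y hy => by
      by_cases h : y = 0
      · exact Or.inl h
      · exact Or.inr ⟨hy, h⟩
  have hne : (Y \ {0}).Nonempty := by
    by_contra h
    rw [Set.not_nonempty_iff_eq_empty] at h
    have := hsub ha'
    rw [h] at this
    simp [ha.ne', hw] at this
  have key : ∀ x ∈ convexHull ℝ Y, x ≠ 0 → ∃ t : ℝ, 0 < t ∧ t • x ∈ convexHull ℝ (Y \ {0}) := by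
    intro x hx hx0
    have := hsub hx
    rw [convexHull_insert hne] at this
    obtain ⟨_, rfl, z, hz, s, t, hs, ht, hst, rfl⟩ := mem_convexJoin.mp this
    have ht0 : t ≠ 0 := by rintro rfl; simp at hx0
    refine ⟨t⁻¹, by positivity, ?_⟩
    simpa [smul_smul, ht0] using hz
  obtain ⟨t, ht, h1⟩ := key _ ha' (smul_ne_zero ha.ne' hw)
  obtain ⟨t', ht', h2⟩ := key _ hb' (smul_ne_zero hb.ne' (neg_ne_zero.mpr hw))
  have h3 := convex_convexHull ℝ _ h1 h2 (a := t' * b / (t * a + t' * b))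
    (b := t * a / (t * a + t' * b)) (by positivity) (by positivity) (by field_simp; ring)
  convert h3 using 1
  simp only [smul_smul, smul_neg]
  rw [← sub_eq_add_neg, ← sub_smul]
  have : t' * b / (t * a + t' * b) * (t * a) - t * a / (t * a + t' * b) * (t' * b) = 0 := by ring
  rw [this, zero_smul]

lemma finrank_perp {ι J : Type} [Fintype ι] [Fintype J] [Nonempty J] (y : J → ι → ℝ)
    (hy : AffineIndependent ℝ y) :
    finrank ℝ (LinearMap.ker (Matrix.of y).mulVecLin) + Fintype.card J ≤ Fintype.card ι + 1 := by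
  classical
  have h1 := LinearMap.finrank_range_add_finrank_ker (Matrix.of y).mulVecLin
  have h2 : (Matrix.of y).rank = finrank ℝ (span ℝ (Set.range y)) :=
    Matrix.rank_eq_finrank_span_row _
  have h3 : Fintype.card J = (Fintype.card J - 1) + 1 := by
    have := Fintype.card_pos (α := J); omega
  have h4 := hy.finrank_vectorSpan h3
  have h5 : vectorSpan ℝ (Set.range y) ≤ span ℝ (Set.range y) := by
    rw [vectorSpan_def, span_le]
    rintro _ ⟨a, ha, b, hb, rfl⟩
    exact sub_mem (subset_span ha) (subset_span hb)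
  have h6 := finrank_mono h5
  rw [Matrix.rank] at h2
  rw [Module.finrank_fintype_fun_eq_card] at h1
  omega

theorem main (s : ℕ) (hs : 1 ≤ s) (P : Set (Fin (3 * s - 1) → ℝ)) (r : ℕ)
    (hG : IsGorenstein P r) (hdeg : r + s = (3 * s - 1) + 1) (hpyr : ¬ IsLatticePyramid P) :
    LatticeIso P (Cs s) := by
  classical
  obtain ⟨⟨V, hV, rfl⟩, ⟨m, hm, hQl, hQ0, Y, hYi, hY⟩, -⟩ := hG
  have hr : r = 2 * s := by omega
  have hr0 : (0 : ℝ) < r := by rw [hr]; positivity
  set Q := (fun x => (r : ℝ) • x - m) '' convexHull ℝ (V : Set (Fin (3 * s - 1) → ℝ)) with hQ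
  have : Nonempty (Fin (3 * s - 1)) := ⟨⟨0, by omega⟩⟩
  have F0 : ∀ y ∈ Y, ∀ x ∈ Q, -1 ≤ x ⬝ᵥ y := fun y hy => by
    have : y ∈ dual Q := hY ▸ subset_convexHull ℝ _ hy
    exact this
  have F1 : ∀ ω, IsInt ω → (∀ y ∈ Y, -1 < ω ⬝ᵥ y) → ω = 0 := by
    intro ω hω h
    obtain ⟨ε, hε, h1⟩ := exists_smul_mem_dual hQl (-ω)
    rw [hY] at h1
    have h2 := convexHull_min (fun y hy => by
      obtain ⟨k, hk⟩ := hω.dot (hYi y hy)
      have h3 := h y hy
      rw [hk] at h3
      have h4 : -1 < k := by exact_mod_cast h3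
      have h5 : (0 : ℝ) ≤ k := by exact_mod_cast (by omega : 0 ≤ k)
      change 0 ≤ y ⬝ᵥ ω
      rwa [dotProduct_comm, hk]) (dot_convex ω 0) h1
    simp only [Set.mem_ofPred_eq, smul_dotProduct, neg_dotProduct, smul_eq_mul] at h2
    exact eq_zero_of_dot_self (by nlinarith)
  have F2 : ∀ y ∈ Y, y ≠ 0 → ∃ v ∈ V, ((r : ℝ) • v - m) ⬝ᵥ y = -1 := by
    intro y hy hy0
    by_contra h
    push Not at h
    have h1 : ∀ x ∈ convexHull ℝ (V : Set (Fin (3 * s - 1) → ℝ)), m ⬝ᵥ y / r ≤ x ⬝ᵥ y := by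
      refine convexHull_min (fun v hv => ?_) (dot_convex y _)
      obtain ⟨k, hk⟩ := (((hV v hv).smul (c := (r : ℝ)) ⟨r, by simp⟩).sub hm).dot (hYi y hy)
      have h2 := F0 y hy _ ⟨v, subset_convexHull ℝ _ hv, rfl⟩
      have h3 := h v hv
      simp only [hk] at h2 h3
      have h4 : -1 ≤ k := by exact_mod_cast h2
      have h5 : k ≠ -1 := by exact_mod_cast h3
      have h6 : (0 : ℝ) ≤ k := by exact_mod_cast (by omega : 0 ≤ k)
      rw [← hk, sub_dotProduct, smul_dotProduct, smul_eq_mul] at h6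
      change m ⬝ᵥ y / r ≤ v ⬝ᵥ y
      rw [div_le_iff₀ hr0]; linarith
    obtain ⟨ε, hε, x, hx, hx'⟩ := exists_smul_mem_of_interior hQ0 (-y)
    have h2 := h1 x hx
    rw [div_le_iff₀ hr0] at h2
    have h3 := congrArg (· ⬝ᵥ y) hx'
    simp only [sub_dotProduct, smul_dotProduct, neg_dotProduct, smul_eq_mul] at h3
    exact hy0 (eq_zero_of_dot_self (by nlinarith))
  have hP : affineSpan ℝ (convexHull ℝ (V : Set (Fin (3 * s - 1) → ℝ))) = ⊤ := by
    rw [eq_top_iff]
    intro x _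
    obtain ⟨x0, hx0, hx0'⟩ := interior_subset hQ0
    obtain ⟨ε, hε, x1, hx1, hx1'⟩ := exists_smul_mem_of_interior hQ0 (x - x0)
    have h1 := (affineSpan ℝ (convexHull ℝ (V : Set (Fin (3 * s - 1) → ℝ)))).smul_vsub_vadd_mem
      (r / ε) (subset_affineSpan ℝ _ hx1) (subset_affineSpan ℝ _ hx0) (subset_affineSpan ℝ _ hx0)
    convert h1 using 1
    simp only at hx0' hx1'
    have h2 : (r : ℝ) • (x1 - x0) = ε • (x - x0) := by
      rw [← hx1', smul_sub, ← sub_eq_zero.mp hx0']
    rw [vsub_eq_sub, vadd_eq_add, div_eq_inv_mul, mul_smul, h2, smul_smul,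
      inv_mul_cancel₀ hε.ne', one_smul, sub_add_cancel]
  obtain ⟨J, _, y, w, hyY, hyi, hw, hw1, hw0⟩ :=
    eq_pos_convex_span_of_mem_convexHull (zero_mem_hull hQl hY)
  have hyY' : ∀ j, y j ∈ Y := fun j => (hyY ⟨j, rfl⟩).1
  choose v0 hv0 hv0' using fun j => F2 (y j) (hyY' j) (hyY ⟨j, rfl⟩).2
  let c : J → ℝ := fun j => v0 j ⬝ᵥ y j
  let u : J → (Fin (3 * s - 1) → ℝ) → ℝ := fun j x => x ⬝ᵥ y j - c j
  have hcI : ∀ j, ∃ k : ℤ, c j = k := fun j => (hV _ (hv0 j)).dot (hYi _ (hyY' j))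
  have hu : ∀ j x, r * u j x = ((r : ℝ) • x - m) ⬝ᵥ y j + 1 := by
    intro j x
    have := hv0' j
    simp only [sub_dotProduct, smul_dotProduct, smul_eq_mul, u, c] at this ⊢
    linarith
  have huN : ∀ j, ∀ v ∈ V, ∃ k : ℕ, u j v = k := by
    intro j v hv
    obtain ⟨a, ha⟩ := (hV v hv).dot (hYi _ (hyY' j))
    obtain ⟨b, hb⟩ := hcI j
    have h1 := F0 _ (hyY' j) _ ⟨v, subset_convexHull ℝ _ hv, rfl⟩
    have h2 : 0 ≤ u j v := by
      have := hu j v
      simp only at h1
      exact le_of_mul_le_mul_left (by linarith) hr0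
    have h3 : u j v = ((a - b : ℤ) : ℝ) := by simp [u, ha, hb]
    rw [h3] at h2 ⊢
    obtain ⟨k, hk⟩ := Int.eq_ofNat_of_zero_le (by exact_mod_cast h2 : 0 ≤ a - b)
    exact ⟨k, by rw [hk]; simp⟩
  have hu0 : ∀ j, ∀ v ∈ V, 0 ≤ u j v := fun j v hv => by
    obtain ⟨k, hk⟩ := huN j v hv
    rw [hk]; positivity
  let b : J → ℝ := fun j => r * w j
  have hb0 : ∀ j, 0 < b j := fun j => mul_pos hr0 (hw j)
  have hbsum : ∑ j, b j = r := by simp only [b, ← Finset.mul_sum, hw1, mul_one]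
  have hbu : ∀ x, ∑ j, b j * u j x = 1 := by
    intro x
    have h1 : ∀ j, b j * u j x = ((r : ℝ) • x - m) ⬝ᵥ (w j • y j) + w j := fun j => by
      simp only [b]
      rw [mul_comm (r : ℝ), mul_assoc, hu, dotProduct_smul, smul_eq_mul]; ring
    simp only [h1, Finset.sum_add_distrib, ← dotProduct_sum, hw0, hw1]
    simp
  obtain ⟨x0, hx0, hx0'⟩ := interior_subset hQ0
  simp only at hx0'
  obtain ⟨a', ha'0, ha'1, ha'x⟩ := Finset.mem_convexHull'.mp hx0
  let a : (Fin (3 * s - 1) → ℝ) → ℝ := fun v => r * a' v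
  have ha0 : ∀ v ∈ V, 0 ≤ a v := fun v hv => mul_nonneg hr0.le (ha'0 v hv)
  have hasum : ∑ v ∈ V, a v = r := by simp only [a, ← Finset.mul_sum, ha'1, mul_one]
  have ham : ∑ v ∈ V, a v • v = m := by
    simp only [a, mul_smul, ← Finset.smul_sum, ha'x]
    exact sub_eq_zero.mp hx0'
  have hau : ∀ j, ∑ v ∈ V, a v * u j v = 1 := by
    intro j
    have h1 : ∑ v ∈ V, a v * u j v = (∑ v ∈ V, a v • v) ⬝ᵥ y j - (∑ v ∈ V, a v) * c j := by
      simp only [u, mul_sub, Finset.sum_sub_distrib, sum_dotProduct, smul_dotProduct,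
        smul_eq_mul, Finset.sum_mul]
    have h2 := hv0' j
    rw [h1, ham, hasum]
    simp only [sub_dotProduct, smul_dotProduct, smul_eq_mul, c] at h2 ⊢
    linarith
  have hle : ∀ j, ∀ v ∈ V, b j * u j v ≤ 1 := fun j v hv => by
    rw [← hbu v]
    exact Finset.single_le_sum (f := fun j => b j * u j v)
      (fun i _ => mul_nonneg (hb0 i).le (hu0 i v hv)) (Finset.mem_univ j)
  have hex1 : ∀ j, ∃ v ∈ V, 1 ≤ u j v := by
    intro j
    by_contra h
    push Not at h
    have h1 := hau j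
    rw [Finset.sum_eq_zero] at h1
    · exact zero_ne_one h1
    · intro v hv
      obtain ⟨k, hk⟩ := huN j v hv
      have h2 := h v hv
      rw [hk] at h2 ⊢
      have : k < 1 := by exact_mod_cast h2
      have : k = 0 := by omega
      simp [this]
  have hb1 : ∀ j, b j ≤ 1 := fun j => by
    obtain ⟨v, hv, h⟩ := hex1 j
    nlinarith [hle j v hv, hb0 j]
  let T : Finset J := Finset.univ.filter fun j => b j = 1
  have hT : ∀ j, j ∈ T ↔ b j = 1 := fun j => by simp [T]
  have hsplit : ∀ f : J → ℝ, ∑ j, f j = ∑ j ∈ T, f j + ∑ j ∈ Tᶜ, f j := fun f =>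
    (Finset.sum_add_sum_compl T f).symm
  have hhalf : ∀ v ∈ V, 2 * ∑ j ∈ Tᶜ, b j * u j v ≤ ∑ j ∈ Tᶜ, u j v := by
    intro v hv
    choose k hk using fun j => huN j v hv
    have h1 := hbu v
    rw [hsplit, Finset.sum_congr rfl (fun j hj => by rw [(hT j).mp hj, one_mul])] at h1
    have h2 : 0 ≤ ∑ j ∈ Tᶜ, b j * u j v :=
      Finset.sum_nonneg fun j _ => mul_nonneg (hb0 j).le (hu0 j v hv)
    have h3 : ∑ j ∈ T, u j v = ((∑ j ∈ T, k j : ℕ) : ℝ) := by simp [hk]
    have h4 : ∑ j ∈ Tᶜ, u j v = ((∑ j ∈ Tᶜ, k j : ℕ) : ℝ) := by simp [hk]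
    rcases Nat.eq_zero_or_pos (∑ j ∈ T, k j) with h | h
    · rw [h3, h] at h1
      have h5 : ∑ j ∈ Tᶜ, b j * u j v < ∑ j ∈ Tᶜ, u j v := by
        refine Finset.sum_lt_sum (fun j _ => by nlinarith [hb1 j, hu0 j v hv]) ?_
        by_contra h6
        push Not at h6
        rw [Finset.sum_eq_zero] at h1
        · simp at h1
        · intro j hj
          have h7 : b j < 1 := lt_of_le_of_ne (hb1 j) fun e =>
            Finset.mem_compl.mp hj ((hT j).mpr e)
          have h8 : u j v = 0 := by nlinarith [h6 j hj, hu0 j v hv]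
          rw [h8, mul_zero]
      have h6 : ∑ j ∈ Tᶜ, b j * u j v = 1 := by simpa using h1
      rw [h6, h4] at h5
      have h7 : 1 < ∑ j ∈ Tᶜ, k j := by exact_mod_cast h5
      have h8 : (2 : ℝ) ≤ ((∑ j ∈ Tᶜ, k j : ℕ) : ℝ) := by exact_mod_cast h7
      rw [h6, h4]; linarith
    · have h5 : (1 : ℝ) ≤ ((∑ j ∈ T, k j : ℕ) : ℝ) := by exact_mod_cast h
      have h6 : (0 : ℝ) ≤ ((∑ j ∈ Tᶜ, k j : ℕ) : ℝ) := by positivity
      rw [h4]; linarith
  have hcount : 4 * s ≤ T.card + Fintype.card J := by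
    have h1 : 2 * ∑ j ∈ Tᶜ, b j ≤ Tᶜ.card := by
      have h2 := Finset.sum_le_sum fun v hv => mul_le_mul_of_nonneg_left (hhalf v hv) (ha0 v hv)
      have h3 : ∑ v ∈ V, a v * (2 * ∑ j ∈ Tᶜ, b j * u j v) = 2 * ∑ j ∈ Tᶜ, b j := by
        simp only [Finset.mul_sum]
        rw [Finset.sum_comm]
        refine Finset.sum_congr rfl fun j _ => ?_
        calc ∑ v ∈ V, a v * (2 * (b j * u j v)) = 2 * b j * ∑ v ∈ V, a v * u j v := by
              rw [Finset.mul_sum]; exact Finset.sum_congr rfl fun v _ => by ring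
          _ = _ := by rw [hau, mul_one]
      have h4 : ∑ v ∈ V, a v * ∑ j ∈ Tᶜ, u j v = Tᶜ.card := by
        simp only [Finset.mul_sum]
        rw [Finset.sum_comm]
        simp [hau]
      rwa [h3, h4] at h2
    have h2 := hbsum
    rw [hsplit, Finset.sum_congr rfl (fun j hj => (hT j).mp hj)] at h2
    have h3 := Finset.card_add_card_compl T
    have h4 : (T.card : ℝ) + Tᶜ.card = Fintype.card J := by exact_mod_cast h3
    simp only [Finset.sum_const, nsmul_eq_mul, mul_one, hr] at h2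
    push_cast at h2
    have : (4 * s : ℝ) ≤ T.card + Fintype.card J := by linarith
    exact_mod_cast this
  have hJ : Nonempty J := Fintype.card_pos_iff.mp (by
    have := Finset.card_le_univ T; omega)
  set W0 := LinearMap.ker (Matrix.of y).mulVecLin with hW0
  have hW0mem : ∀ x, x ∈ W0 ↔ ∀ j, x ⬝ᵥ y j = 0 := fun x => by
    rw [hW0, LinearMap.mem_ker, funext_iff]
    refine forall_congr' fun j => ?_
    rw [dotProduct_comm]; rfl
  have hW0dim := finrank_perp y hyi
  rw [Fintype.card_fin, ← hW0] at hW0dim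
  let Vs : T → Finset (Fin (3 * s - 1) → ℝ) := fun j => V.filter fun v => u j v = 1
  have hVs : ∀ j v, v ∈ Vs j ↔ v ∈ V ∧ u j v = 1 := fun j v => Finset.mem_filter
  have h01 : ∀ j : T, ∀ v ∈ V, u j v = 0 ∨ u j v = 1 := by
    intro j v hv
    obtain ⟨k, hk⟩ := huN j v hv
    have h1 := hle j v hv
    rw [(hT j).mp j.2, one_mul, hk] at h1
    have h2 : k ≤ 1 := by exact_mod_cast h1
    rw [hk]
    rcases (by omega : k = 0 ∨ k = 1) with rfl | rfl <;> simp
  have hoff : ∀ j : T, ∀ v ∈ Vs j, ∀ k : J, k ≠ j → u k v = 0 := by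
    intro j v hv k hk
    obtain ⟨hv, hv1⟩ := (hVs j v).mp hv
    have h1 := hbu v
    have h2 : b k * u k v + b j * u j v ≤ ∑ j, b j * u j v :=
      Finset.add_le_sum (f := fun j => b j * u j v)
        (fun i _ => mul_nonneg (hb0 i).le (hu0 i v hv)) (Finset.mem_univ _) (Finset.mem_univ _) hk
    rw [h1, hv1, (hT j).mp j.2] at h2
    nlinarith [hb0 k, hu0 k v hv]
  have haVs : ∀ j : T, ∑ v ∈ Vs j, a v = 1 := by
    intro j
    rw [← hau j, Finset.sum_filter]
    refine Finset.sum_congr rfl fun v hv => ?_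
    rcases h01 j v hv with h | h <;> simp [h]
  let V0 : Finset (Fin (3 * s - 1) → ℝ) := V.filter fun v => ∀ j : T, u j v ≠ 1
  have hpart : ∀ {M : Type} [AddCommMonoid M] (f : (Fin (3 * s - 1) → ℝ) → M),
      ∑ v ∈ V, f v = ∑ j : T, ∑ v ∈ Vs j, f v + ∑ v ∈ V0, f v := by
    intro M _ f
    simp only [Vs, V0, Finset.sum_filter]
    rw [Finset.sum_comm, ← Finset.sum_add_distrib]
    refine Finset.sum_congr rfl fun v hv => ?_
    by_cases h : ∃ j : T, u j v = 1
    · obtain ⟨j, hj⟩ := h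
      rw [Finset.sum_eq_single j (fun k _ hk => if_neg (by
        rw [hoff j v ((hVs j v).mpr ⟨hv, hj⟩) k (fun e => hk (Subtype.ext e))]; simp)) (by simp),
        if_pos hj, if_neg (fun h => h j hj), add_zero]
    · push Not at h
      simp [h]
  let S : Setup (Fin (3 * s - 1)) T :=
    { Vs := Vs
      x := fun j => ∑ v ∈ Vs j, a v • v
      int := fun j v hv => hV v ((hVs j v).mp hv).1
      x_mem := fun j => Finset.mem_convexHull'.mpr
        ⟨a, fun v hv => ha0 v ((hVs j v).mp hv).1, haVs j, rfl⟩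
      two := fun j => by
        by_contra h
        push Not at h
        obtain ⟨v, hv, h1⟩ := hex1 j
        have h2 : u j v = 1 := (h01 j v hv).resolve_left (by linarith)
        refine hpyr (pyramid_of V hV hP (y j) (hYi _ (hyY' j)) (c j) (hcI j) v hv h2
          fun v' hv' hne => (h01 j v' hv').resolve_right fun e => hne ?_)
        exact h v' ((hVs j v').mpr ⟨hv', e⟩) v ((hVs j v).mpr ⟨hv, h2⟩)
      Q := Q
      sum_mem := fun y' hy' => by
        have h1 := hpart a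
        have h2 := hpart (fun v => a v • v)
        simp only [haVs, hasum] at h1
        rw [ham] at h2
        refine ⟨∑ t : T ⊕ V0,
          (Sum.elim (fun _ : T => (r : ℝ)⁻¹) (fun v : V0 => (r : ℝ)⁻¹ * a v.1) t) •
          (Sum.elim y' (fun v : V0 => v.1) t), (convex_convexHull ℝ _).sum_mem ?_ ?_ ?_, ?_⟩
        · rintro (j | v) _
          · exact inv_nonneg.mpr hr0.le
          · exact mul_nonneg (by positivity) (ha0 _ (Finset.mem_filter.mp v.2).1)
        · simp only [Fintype.sum_sum_type, Sum.elim_inl, Sum.elim_inr, ← Finset.mul_sum]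
          rw [Finset.sum_coe_sort V0 a]
          calc _ = (r : ℝ)⁻¹ * (∑ j : T, (1 : ℝ) + ∑ v ∈ V0, a v) := by
                rw [mul_add, Finset.mul_sum]; simp [mul_comm]
            _ = 1 := by rw [← h1, inv_mul_cancel₀ hr0.ne']
        · rintro (j | v) _
          · exact convexHull_mono (fun v hv => ((hVs j v).mp hv).1) (hy' j)
          · exact subset_convexHull ℝ _ (Finset.mem_filter.mp v.2).1
        · simp only [Fintype.sum_sum_type, Sum.elim_inl, Sum.elim_inr, mul_smul,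
            ← Finset.smul_sum, ← smul_add, smul_inv_smul₀ hr0.ne']
          rw [Finset.sum_coe_sort V0 (fun v => a v • v), Finset.sum_sub_distrib, h2]
          abel
      uniq := fun ω B hω hB h => by
        refine F1 ω hω fun y' hy' => ?_
        by_contra hlt
        push Not at hlt
        have h1 : span ℝ B ≤ LinearMap.ker (dotProductBilin ℝ ℝ y') := span_le.mpr fun w' hw' => by
          obtain ⟨ε, hε, h2, h3⟩ := h w' hw'
          have h4 := F0 y' hy' _ h2
          have h5 := F0 y' hy' _ h3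
          simp only [add_dotProduct, sub_dotProduct, smul_dotProduct, smul_eq_mul] at h4 h5
          change y' ⬝ᵥ w' = 0
          rw [dotProduct_comm]
          have : ε * (w' ⬝ᵥ y') = 0 := by linarith
          exact (mul_eq_zero.mp this).resolve_left hε.ne'
        have h2 : y' ⬝ᵥ ω = 0 := h1 hB
        rw [dotProduct_comm] at h2
        linarith }
  have hDW : ∀ j, ∀ w' ∈ S.D j, w' ∈ W0 := by
    intro j w' hw'
    obtain ⟨p, hp, hp'⟩ := S.mem_D.mp hw'
    rw [hW0mem]
    intro k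
    have h1 : u k (p + w') = u k p := by
      by_cases hk : k = j
      · rw [hk, ((hVs j _).mp hp).2, ((hVs j _).mp hp').2]
      · rw [hoff j _ hp k hk, hoff j _ hp' k hk]
    simp only [u, add_dotProduct] at h1
    linarith
  have hh := S.hall Finset.univ
  have hWle : spanOn S.D Finset.univ ≤ W0 := spanOn_le fun j _ => hDW j
  have hWle' := finrank_mono hWle
  rw [Finset.card_univ, Fintype.card_coe] at hh
  have hTJ := Finset.card_le_univ T
  have hTc : T.card = 2 * s := by omega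
  have hJc : Fintype.card J = 2 * s := by omega
  have hW0s : finrank ℝ W0 = s := by omega
  have hTall : ∀ j, j ∈ T := by
    have : T = Finset.univ := Finset.eq_univ_of_card T (by omega)
    intro j; rw [this]; exact Finset.mem_univ j
  have husum : ∀ x, ∑ j : T, u j x = 1 := by
    intro x
    rw [← hbu x, Finset.sum_coe_sort T (fun j => u j x)]
    rw [show T = Finset.univ from Finset.eq_univ_iff_forall.mpr hTall]
    exact Finset.sum_congr rfl fun j _ => by rw [(hT j).mp (hTall j), one_mul]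
  have hcover : ∀ v ∈ V, ∃ j : T, v ∈ Vs j := by
    intro v hv
    by_contra h
    push Not at h
    have h1 := husum v
    rw [Finset.sum_eq_zero] at h1
    · exact zero_ne_one h1
    · exact fun j _ => (h01 j v hv).resolve_right fun e => h j ((hVs j v).mpr ⟨hv, e⟩)
  have hxI : IsInt (∑ j, S.x j) := by
    have h2 := hpart (fun v => a v • v)
    rw [ham, Finset.sum_eq_zero (s := V0) (fun v hv => by
      obtain ⟨h3, h4⟩ := Finset.mem_filter.mp hv
      obtain ⟨j, hj⟩ := hcover v h3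
      exact absurd ((hVs j v).mp hj).2 (h4 j)), add_zero] at h2
    rw [h2] at hm
    exact hm
  obtain ⟨z, S1, S2, hd, hu12, hz, l1, l2⟩ := two_indep S.D Finset.univ fun S' _ => S.hall S'
  have hzW : ∀ i, z i ∈ W0 := fun i => hDW i _ (hz i (Finset.mem_univ _))
  have c1 := Setup.card_le_of_li l1 fun k => hzW k
  have c2 := Setup.card_le_of_li l2 fun k => hzW k
  have c3 : S1.card + S2.card = 2 * s := by
    rw [← Finset.card_union_of_disjoint hd, hu12, Finset.card_univ, Fintype.card_coe, hTc]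
  rw [Fintype.card_coe] at c1 c2
  let f1 : Fin s ≃ S1 := (Fintype.equivFinOfCardEq (by rw [Fintype.card_coe]; omega)).symm
  let f2 : Fin s ≃ S2 := (Fintype.equivFinOfCardEq (by rw [Fintype.card_coe]; omega)).symm
  let e1 : Fin s → T := fun k => f1 k
  let e2 : Fin s → T := fun k => f2 k
  have i1 : Function.Injective e1 := Subtype.val_injective.comp f1.injective
  have i2 : Function.Injective e2 := Subtype.val_injective.comp f2.injective
  have hd' : ∀ k k', e1 k ≠ e2 k' := fun k k' e =>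
    Finset.disjoint_left.mp hd (f1 k).2 (by
      change e1 k ∈ S2
      rw [e]; exact (f2 k').2)
  have hall : ∀ i, (∃ k, e1 k = i) ∨ ∃ k, e2 k = i := by
    intro i
    rcases Finset.mem_union.mp (hu12 ▸ Finset.mem_univ i) with h | h
    · exact Or.inl ⟨f1.symm ⟨i, h⟩, by simp [e1]⟩
    · exact Or.inr ⟨f2.symm ⟨i, h⟩, by simp [e2]⟩
  have l1' : LinearIndependent ℝ (z ∘ e1) := l1.comp f1 f1.injective
  have l2' : LinearIndependent ℝ (z ∘ e2) := l2.comp f2 f2.injective
  have s1 := Setup.span_eq_of_card l1' (fun k => hzW _) (by rw [Fintype.card_fin]; omega)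
  have s2 := Setup.span_eq_of_card l2' (fun k => hzW _) (by rw [Fintype.card_fin]; omega)
  choose p hp hp' using fun i => S.mem_D.mp (hz i (Finset.mem_univ _))
  have hψ : ∀ e : Fin s → T, LinearIndependent ℝ (z ∘ e) → span ℝ (Set.range (z ∘ e)) = W0 →
      ∃ ψ : (Fin (3 * s - 1) → ℝ) →ₗ[ℝ] (Fin s → ℝ),
        (∀ γ : Fin s → ℝ, ψ (∑ k, γ k • z (e k)) = γ) ∧
        ∀ w ∈ W0, ∑ k, ψ w k • z (e k) = w := by
    intro e le se
    obtain ⟨ψ, hψ⟩ := (Fintype.linearCombination ℝ (z ∘ e)).exists_leftInverse_of_injective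
      (LinearMap.ker_eq_bot.mpr (linearIndependent_iff_injective_fintypeLinearCombination.mp le))
    have h1 : ∀ γ : Fin s → ℝ, ψ (∑ k, γ k • z (e k)) = γ := fun γ =>
      LinearMap.congr_fun hψ γ
    refine ⟨ψ, h1, fun w hw => ?_⟩
    rw [← se, mem_span_range_iff_exists_fun] at hw
    obtain ⟨γ, rfl⟩ := hw
    simp only [Function.comp_apply]
    rw [h1]
  obtain ⟨ψ, hψ1, hψ2⟩ := hψ e1 l1' s1
  obtain ⟨ψ', hψ1', hψ2'⟩ := hψ e2 l2' s2
  obtain ⟨hI, π, hπ⟩ := S.structure_aux e1 e2 i1 i2 hd' hall p z (fun i => ⟨hp i, hp' i⟩) W0 hDW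
    s2 l2' hxI ψ hψ1 hψ2
  obtain ⟨-, π', hπ'⟩ := S.structure_aux e2 e1 i2 i1 (fun k k' => (hd' k' k).symm)
    (fun i => (hall i).symm) p z (fun i => ⟨hp i, hp' i⟩) W0 hDW s1 l1' hxI ψ' hψ1' hψ2'
  let τ : Fin s ⊕ Fin s → T := Sum.elim e1 (fun k => e2 (π k))
  have hτ : Function.Bijective τ := by
    constructor
    · rintro (k | k) (k' | k') e
      · rw [i1 e]
      · exact absurd e (hd' _ _)
      · exact absurd e.symm (hd' _ _)
      · rw [π.injective (i2 e)]
    · intro i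
      rcases hall i with ⟨k, rfl⟩ | ⟨k, rfl⟩
      · exact ⟨Sum.inl k, rfl⟩
      · exact ⟨Sum.inr (π.symm k), by simp [τ]⟩
  let ζ : Fin s ⊕ Fin s → Fin (3 * s - 1) → ℝ := Sum.elim (z ∘ e1) (fun k => -(z ∘ e1) k)
  have hq : ∀ t, ∃ q, ∀ v, v ∈ Vs (τ t) ↔ v = q ∨ v = q + ζ t := by
    rintro (k | k)
    · refine ⟨p (e1 k), fun v => ⟨fun hv => ?_, ?_⟩⟩
      · have := (hπ' (π'.symm k)).2 v
        rw [Equiv.apply_symm_apply] at this
        exact this hv
      · rintro (rfl | rfl)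
        · exact hp _
        · exact hp' _
    · have h1 : ∀ v, v ∈ Vs (τ (Sum.inr k)) ↔
          v = p (e2 (π k)) ∨ v = p (e2 (π k)) + z (e2 (π k)) := fun v =>
        ⟨(hπ k).2 v, by
          rintro (rfl | rfl)
          · exact hp _
          · exact hp' _⟩
      rcases (hπ k).1 with h | h
      · refine ⟨p (e2 (π k)) + z (e2 (π k)), fun v => ?_⟩
        rw [h1, or_comm, h]
        simp [ζ]
      · refine ⟨p (e2 (π k)), fun v => ?_⟩
        rw [h1, h]
        simp [ζ]
  choose q hq using hq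
  refine iso_Cs V hV hP (fun t => y (τ t)) (fun t => hYi _ (hyY' _)) (fun t => c (τ t))
    (fun t => hcI _) (fun x => ?_) q (z ∘ e1) (fun t t' => ?_)
    (fun k t => (hW0mem _).mp (hzW _) _) ?_ ψ hψ1 (fun w hw => hψ2 w ?_) (fun w hw => hI w ?_)
  · rw [← husum x]
    exact Fintype.sum_bijective τ hτ _ _ fun t => rfl
  · have h1 := (hq t (q t)).mpr (Or.inl rfl)
    by_cases h : t' = t
    · subst h
      rw [Pi.single_eq_same]
      exact ((hVs _ _).mp h1).2
    · rw [Pi.single_eq_of_ne h]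
      exact hoff _ _ h1 _ fun e => h (hτ.1 (Subtype.ext e))
  · ext v
    constructor
    · intro hv
      obtain ⟨j, hj⟩ := hcover v hv
      obtain ⟨t, rfl⟩ := hτ.2 j
      rcases (hq t v).mp hj with h | h
      · exact Or.inl ⟨t, h.symm⟩
      · exact Or.inr ⟨t, h.symm⟩
    · rintro (⟨t, rfl⟩ | ⟨t, rfl⟩)
      · exact ((hVs _ _).mp ((hq t _).mpr (Or.inl rfl))).1
      · exact ((hVs _ _).mp ((hq t _).mpr (Or.inr rfl))).1
  · rw [hW0mem]
    intro j
    obtain ⟨t, ht⟩ := hτ.2 ⟨j, hTall j⟩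
    simpa [ht] using hw t
  · rw [hW0mem]
    intro j
    obtain ⟨t, ht⟩ := hτ.2 ⟨j, hTall j⟩
    simpa [ht] using hw t

end Pool.Agent.H373Z.Gor
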