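import Pool.Agent.H373Z.Gor.Core

set_option autoImplicit false

namespace Pool.Agent.H373Z.Gor

open Module Submodule

section general
variable {ι : Type} [Fintype ι]

lemma dot_convex (y : ι → ℝ) (c : ℝ) : Convex ℝ {x : ι → ℝ | c ≤ x ⬝ᵥ y} := by
  intro a ha b hb s t hs ht hst
  simp only [Set.mem_ofPred_eq, add_dotProduct, smul_dotProduct, smul_eq_mul] at *
  have : c = s * c + t * c := by rw [← add_mul, hst, one_mul]
  nlinarith [mul_le_mul_of_nonneg_left ha hs, mul_le_mul_of_nonneg_left hb ht]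

lemma eq_zero_of_dot_self {y : ι → ℝ} (h : y ⬝ᵥ y ≤ 0) : y = 0 := by
  have h1 : 0 ≤ y ⬝ᵥ y := Finset.sum_nonneg fun i _ => mul_self_nonneg _
  exact dotProduct_self_eq_zero.mp (le_antisymm h h1)

omit [Fintype ι] in
lemma exists_smul_mem_of_interior {Q : Set (ι → ℝ)} (h : 0 ∈ interior Q) (y : ι → ℝ) :
    ∃ ε : ℝ, 0 < ε ∧ ε • y ∈ Q := by
  have hc : Continuous fun t : ℝ => t • y := by fun_prop
  have h1 : (fun t : ℝ => t • y) ⁻¹' Q ∈ nhds (0 : ℝ) :=
    hc.continuousAt.preimage_mem_nhds (by simpa using mem_interior_iff_mem_nhds.mp h)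
  obtain ⟨ε, hε, h2⟩ := Metric.mem_nhds_iff.mp h1
  exact ⟨ε / 2, by positivity, h2 (by
    rw [Metric.mem_ball, Real.dist_eq, sub_zero, abs_of_pos (by positivity)]; linarith)⟩

lemma exists_smul_mem_dual {Q : Set (ι → ℝ)} (hQ : IsLatticePolytope Q) (y : ι → ℝ) :
    ∃ ε : ℝ, 0 < ε ∧ ε • y ∈ dual Q := by
  obtain ⟨V, -, rfl⟩ := hQ
  let C : ℝ := 1 + ∑ v ∈ V, |v ⬝ᵥ y|
  have hC : 0 < C := by positivity
  refine ⟨C⁻¹, by positivity, fun x hx => ?_⟩
  refine convexHull_min (fun v hv => ?_) (dot_convex _ _) hx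
  have h1 : |v ⬝ᵥ y| ≤ ∑ v ∈ V, |v ⬝ᵥ y| :=
    Finset.single_le_sum (f := fun v => |v ⬝ᵥ y|) (fun _ _ => abs_nonneg _) hv
  simp only [Set.mem_ofPred_eq, dotProduct_smul, smul_eq_mul]
  have h2 : -C ≤ v ⬝ᵥ y := by
    have := neg_abs_le (v ⬝ᵥ y)
    simp only [C]; linarith
  calc (-1 : ℝ) = C⁻¹ * -C := by field_simp
    _ ≤ _ := by gcongr

omit [Fintype ι] in
lemma latticeIso_of {κ : Type} {P : Set (ι → ℝ)} {P' : Set (κ → ℝ)} (hP : affineSpan ℝ P = ⊤)
    (φ : (ι → ℝ) →ᵃ[ℝ] (κ → ℝ)) (h1 : φ '' P = P') (h2 : Function.Injective φ)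
    (h3 : ∀ x, IsInt (φ x) ↔ IsInt x) : LatticeIso P P' := by
  have h4 : ∀ y, y ∈ affineSpan ℝ P' ↔ ∃ x, φ x = y := by
    intro y
    rw [← h1, ← AffineSubspace.map_span, hP, AffineSubspace.mem_map]
    simp
  refine ⟨φ, h1, fun x hx => ⟨(h4 _).mpr ⟨x, rfl⟩, (h3 x).mpr hx.2⟩, h2.injOn, fun y hy => ?_⟩
  obtain ⟨x, rfl⟩ := (h4 y).mp hy.1
  exact ⟨x, ⟨by rw [hP]; trivial, (h3 x).mp hy.2⟩, rfl⟩

end general

lemma pyramid_of {d : ℕ} (V : Finset (Fin d → ℝ)) (hV : ∀ v ∈ V, IsInt v)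
    (hP : affineSpan ℝ (convexHull ℝ (V : Set (Fin d → ℝ))) = ⊤) (y : Fin d → ℝ) (hy : IsInt y)
    (c : ℝ) (hc : ∃ k : ℤ, c = k) (v0 : Fin d → ℝ) (hv0 : v0 ∈ V) (h1 : v0 ⬝ᵥ y - c = 1)
    (h0 : ∀ v ∈ V, v ≠ v0 → v ⬝ᵥ y - c = 0) :
    IsLatticePyramid (convexHull ℝ (V : Set (Fin d → ℝ))) := by
  classical
  let φ : (Fin d → ℝ) →ᵃ[ℝ] (Option (Fin d) → ℝ) :=
    { toFun := fun x o => o.elim (x ⬝ᵥ y - c) (x - (x ⬝ᵥ y - c) • v0)
      linear :=
        { toFun := fun x o => o.elim (x ⬝ᵥ y) (x - (x ⬝ᵥ y) • v0)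
          map_add' := fun a b => by
            funext o; cases o <;> simp [add_dotProduct]; ring
          map_smul' := fun t a => by
            funext o; cases o <;> simp [smul_dotProduct]; ring }
      map_vadd' := fun a b => by
        funext o; cases o <;> simp [add_dotProduct] <;> ring }
  have hφ : ∀ x, φ x = fun o => o.elim (x ⬝ᵥ y - c) (x - (x ⬝ᵥ y - c) • v0) := fun _ => rfl
  refine ⟨d, convexHull ℝ (V.erase v0 : Set (Fin d → ℝ)),
    ⟨V.erase v0, fun v hv => hV v (Finset.mem_of_mem_erase hv), rfl⟩,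
    latticeIso_of hP φ ?_ ?_ ?_⟩
  · let L : (Fin d → ℝ) →ₗ[ℝ] (Option (Fin d) → ℝ) :=
      { toFun := fun x o => o.elim 0 x
        map_add' := fun a b => by funext o; cases o <;> simp
        map_smul' := fun t a => by funext o; cases o <;> simp }
    have hL : (fun x (o : Option (Fin d)) => o.elim 0 x) ''
        convexHull ℝ (V.erase v0 : Set (Fin d → ℝ)) =
        convexHull ℝ (L '' (V.erase v0 : Set (Fin d → ℝ))) := L.image_convexHull _
    rw [φ.image_convexHull, pyramid, hL, convexHull_convexHull_union_left]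
    congr 1
    ext w
    simp only [Set.mem_image, Set.mem_union, Finset.mem_coe, Finset.mem_erase,
      Set.mem_singleton_iff]
    have e0 : φ v0 = fun o => o.elim 1 (fun _ => 0) := by
      rw [hφ, h1]; funext o; cases o <;> simp
    have e1 : ∀ v ∈ V, v ≠ v0 → φ v = L v := fun v hv hne => by
      rw [hφ, h0 v hv hne]; funext o; cases o <;> simp [L]
    constructor
    · rintro ⟨v, hv, rfl⟩
      by_cases h : v = v0
      · right; rw [h, e0]
      · left; exact ⟨v, ⟨h, hv⟩, (e1 v hv h).symm⟩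
    · rintro (⟨v, ⟨h, hv⟩, rfl⟩ | rfl)
      · exact ⟨v, hv, e1 v hv h⟩
      · exact ⟨v0, hv0, e0⟩
  · intro a b hab
    have h2 := congrFun hab none
    rw [hφ, hφ] at h2
    simp only [Option.elim_none] at h2
    funext i
    have h3 := congrFun hab (some i)
    rw [hφ, hφ] at h3
    simp only [Option.elim_some, h2, Pi.sub_apply] at h3
    linarith
  · intro x
    constructor
    · intro h
      have h2 : IsInt (x - (x ⬝ᵥ y - c) • v0) := fun i => h (some i)
      have h3 : ∃ k : ℤ, x ⬝ᵥ y - c = k := h none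
      simpa using h2.add ((hV v0 hv0).smul h3)
    · intro h
      have h2 : ∃ k : ℤ, x ⬝ᵥ y - c = k := by
        obtain ⟨a, ha⟩ := h.dot hy
        obtain ⟨b, hb⟩ := hc
        exact ⟨a - b, by simp [ha, hb]⟩
      rintro (_ | i)
      · exact h2
      · exact (h.sub ((hV v0 hv0).smul h2)) i

lemma Cs_eq (s : ℕ) : Cs s = convexHull ℝ
    ((Set.range fun t : Fin s ⊕ Fin s => Sum.elim (0 : Fin s → ℝ) (Pi.single t (1 : ℝ))) ∪
     (Set.range fun t : Fin s ⊕ Fin s => Sum.elim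
       (Sum.elim (fun i => (Pi.single i (1 : ℝ) : Fin s → ℝ)) (fun i => -Pi.single i (1 : ℝ)) t)
       (Pi.single t (1 : ℝ)))) := by
  unfold Cs cayley
  apply Set.Subset.antisymm
  · refine convexHull_min (Set.iUnion_subset fun t => ?_) (convex_convexHull ℝ _)
    let φ : (Fin s → ℝ) →ᵃ[ℝ] (Fin s ⊕ (Fin s ⊕ Fin s) → ℝ) :=
      { toFun := fun x => Sum.elim x (Pi.single t (1 : ℝ))
        linear :=
          { toFun := fun x => Sum.elim x 0
            map_add' := fun a b => by funext o; cases o <;> simp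
            map_smul' := fun t a => by funext o; cases o <;> simp }
        map_vadd' := fun a b => by funext o; cases o <;> simp }
    have h : ∀ A : Set (Fin s → ℝ), (fun x => Sum.elim x (Pi.single t (1 : ℝ))) ''
        convexHull ℝ A = convexHull ℝ (φ '' A) := fun A => φ.image_convexHull A
    rcases t with t | t
    · simp only [Sum.elim_inl]
      rw [h]
      refine convexHull_mono ?_
      rintro _ ⟨x, rfl | rfl, rfl⟩
      · exact Or.inl ⟨Sum.inl t, rfl⟩
      · exact Or.inr ⟨Sum.inl t, rfl⟩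
    · simp only [Sum.elim_inr]
      rw [h]
      refine convexHull_mono ?_
      rintro _ ⟨x, rfl | rfl, rfl⟩
      · exact Or.inl ⟨Sum.inr t, rfl⟩
      · exact Or.inr ⟨Sum.inr t, rfl⟩
  · refine convexHull_mono ?_
    rintro _ (⟨t, rfl⟩ | ⟨t, rfl⟩)
    · refine Set.mem_iUnion.mpr ⟨t, 0, ?_, rfl⟩
      rcases t with t | t <;> exact subset_convexHull ℝ _ (Or.inl rfl)
    · refine Set.mem_iUnion.mpr ⟨t, _, ?_, rfl⟩
      rcases t with t | t <;> exact subset_convexHull ℝ _ (Or.inr rfl)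

/-- The final isomorphism. -/
lemma iso_Cs {ι : Type} [Fintype ι] {s : ℕ} (V : Finset (ι → ℝ)) (hV : ∀ v ∈ V, IsInt v)
    (hP : affineSpan ℝ (convexHull ℝ (V : Set (ι → ℝ))) = ⊤)
    (y : Fin s ⊕ Fin s → ι → ℝ) (hy : ∀ t, IsInt (y t)) (c : Fin s ⊕ Fin s → ℝ)
    (hc : ∀ t, ∃ k : ℤ, c t = k) (hsum : ∀ x, ∑ t, (x ⬝ᵥ y t - c t) = 1)
    (p : Fin s ⊕ Fin s → ι → ℝ) (z : Fin s → ι → ℝ)
    (hp : ∀ t t', p t ⬝ᵥ y t' - c t' = (Pi.single t (1 : ℝ) : _ → ℝ) t')
    (hz : ∀ k t, z k ⬝ᵥ y t = 0)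
    (hVeq : (V : Set (ι → ℝ)) = Set.range p ∪
      Set.range fun t => p t + Sum.elim z (fun k => -z k) t)
    (ψ : (ι → ℝ) →ₗ[ℝ] (Fin s → ℝ)) (hψ1 : ∀ γ : Fin s → ℝ, ψ (∑ k, γ k • z k) = γ)
    (hψ2 : ∀ w, (∀ t, w ⬝ᵥ y t = 0) → ∑ k, ψ w k • z k = w)
    (hψ3 : ∀ w, (∀ t, w ⬝ᵥ y t = 0) → IsInt w → IsInt (ψ w)) :
    LatticeIso (convexHull ℝ (V : Set (ι → ℝ))) (Cs s) := by
  classical
  let R : (ι → ℝ) → ι → ℝ := fun x => x - ∑ t, (x ⬝ᵥ y t - c t) • p t
  let φ : (ι → ℝ) →ᵃ[ℝ] (Fin s ⊕ (Fin s ⊕ Fin s) → ℝ) :=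
    { toFun := fun x => Sum.elim (ψ (R x)) (fun t => x ⬝ᵥ y t - c t)
      linear :=
        { toFun := fun x => Sum.elim (ψ (x - ∑ t, (x ⬝ᵥ y t) • p t)) (fun t => x ⬝ᵥ y t)
          map_add' := fun a b => by
            have : a + b - ∑ t, ((a + b) ⬝ᵥ y t) • p t =
                (a - ∑ t, (a ⬝ᵥ y t) • p t) + (b - ∑ t, (b ⬝ᵥ y t) • p t) := by
              simp only [add_dotProduct, add_smul, Finset.sum_add_distrib]; abel
            rw [this, map_add]
            funext o; cases o <;> simp [add_dotProduct]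
          map_smul' := fun r a => by
            have : r • a - ∑ t, ((r • a) ⬝ᵥ y t) • p t = r • (a - ∑ t, (a ⬝ᵥ y t) • p t) := by
              simp only [smul_dotProduct, smul_eq_mul, mul_smul, smul_sub, Finset.smul_sum]
            rw [this, map_smul]
            funext o; cases o <;> simp [smul_dotProduct] }
      map_vadd' := fun a b => by
        have : R (b +ᵥ a) = (b - ∑ t, (b ⬝ᵥ y t) • p t) + R a := by
          simp only [R, vadd_eq_add, add_dotProduct, add_sub_assoc, add_smul,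
            Finset.sum_add_distrib]; abel
        rw [this, map_add]
        funext o; cases o <;> simp [add_dotProduct]; ring }
  have hφ : ∀ x, φ x = Sum.elim (ψ (R x)) (fun t => x ⬝ᵥ y t - c t) := fun _ => rfl
  have hR : ∀ x t, R x ⬝ᵥ y t = 0 := by
    intro x t
    have h1 : ∀ t', p t' ⬝ᵥ y t = (Pi.single t' (1 : ℝ) : _ → ℝ) t + c t := fun t' => by
      rw [← hp]; ring
    simp only [R, sub_dotProduct, sum_dotProduct, smul_dotProduct, smul_eq_mul, h1, mul_add,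
      Finset.sum_add_distrib, ← Finset.sum_mul, hsum]
    rw [Finset.sum_eq_single t (fun b _ hb => by simp [Pi.single_eq_of_ne hb.symm]) (by simp)]
    simp
  have hRp : ∀ t w, (∀ t', w ⬝ᵥ y t' = 0) → φ (p t + w) = Sum.elim (ψ w) (Pi.single t 1) := by
    intro t w hw
    have h1 : ∀ t', (p t + w) ⬝ᵥ y t' - c t' = (Pi.single t (1 : ℝ) : _ → ℝ) t' := fun t' => by
      rw [add_dotProduct, hw, add_zero, hp]
    have h2 : R (p t + w) = w := by
      simp only [R, h1]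
      rw [Finset.sum_eq_single t (fun b _ hb => by simp [Pi.single_eq_of_ne hb]) (by simp)]
      simp
    rw [hφ, h2]
    simp only [h1]
  have hpV : ∀ t, p t ∈ V := fun t => by
    rw [← Finset.mem_coe, hVeq]; exact Or.inl ⟨t, rfl⟩
  have hzI : ∀ k, IsInt (z k) := fun k => by
    have : p (Sum.inl k) + z k ∈ V := by
      rw [← Finset.mem_coe, hVeq]; exact Or.inr ⟨Sum.inl k, rfl⟩
    simpa using (hV _ this).sub (hV _ (hpV (Sum.inl k)))
  have hψz : ∀ k, ψ (z k) = Pi.single k 1 := fun k => by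
    rw [← hψ1 (Pi.single k 1),
      Finset.sum_eq_single k (fun b _ hb => by simp [Pi.single_eq_of_ne hb]) (by simp)]
    simp
  refine latticeIso_of hP φ ?_ ?_ ?_
  · rw [φ.image_convexHull, Cs_eq, hVeq, Set.image_union, ← Set.range_comp, ← Set.range_comp]
    congr 3
    · funext t
      simpa using hRp t 0 (by simp)
    · funext t
      rcases t with k | k
      · simp only [Function.comp_apply, Sum.elim_inl]
        rw [hRp _ _ (hz k), hψz]
      · simp only [Function.comp_apply, Sum.elim_inr]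
        rw [hRp _ _ (fun t => by rw [neg_dotProduct, hz, neg_zero]), map_neg, hψz]
  · intro a b hab
    rw [hφ, hφ] at hab
    have h1 : ψ (R a) = ψ (R b) := funext fun i => congrFun hab (Sum.inl i)
    have h2 : ∀ t, a ⬝ᵥ y t - c t = b ⬝ᵥ y t - c t := fun t => congrFun hab (Sum.inr t)
    have h3 : R a = R b := by rw [← hψ2 _ (hR a), ← hψ2 _ (hR b), h1]
    simp only [R, h2] at h3
    exact sub_left_injective h3
  · intro x
    rw [hφ]
    constructor
    · intro h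
      have h1 : IsInt (R x) := by
        rw [← hψ2 _ (hR x)]
        exact IsInt.sum _ _ fun k _ => (hzI k).smul (h (Sum.inl k))
      have h2 : IsInt (∑ t, (x ⬝ᵥ y t - c t) • p t) :=
        IsInt.sum _ _ fun t _ => (hV _ (hpV t)).smul (h (Sum.inr t))
      simpa [R] using h1.add h2
    · intro h
      have h2 : ∀ t, ∃ k : ℤ, x ⬝ᵥ y t - c t = k := fun t => by
        obtain ⟨a, ha⟩ := h.dot (hy t)
        obtain ⟨b, hb⟩ := hc t
        exact ⟨a - b, by simp [ha, hb]⟩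
      rintro (i | t)
      · exact hψ3 _ (hR x) (h.sub (IsInt.sum _ _ fun t _ => (hV _ (hpV t)).smul (h2 t))) i
      · exact h2 t

end Pool.Agent.H373Z.Gor
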